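import Pool.Agent.Y276.WM.Ene
import Pool.Agent.H733R2.Exist

set_option autoImplicit false
set_option linter.unusedSectionVars false

namespace Pool.Agent.Y276.WM

open Set Filter Topology MeasureTheory
open Pool.Agent.H733R2 (UU Om Profile fld ww Sm isOpen_Om)

variable {d n : ℕ}

/-- the backward light cone with vertex `(T, x0)`, between the times `0` and `T`; the vertex
belongs to it -/
def cone (T : ℝ) (x0 : Fin d → ℝ) : Set (Fin (d + 1) → ℝ) :=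
  {P | 0 ≤ P 0 ∧ P 0 ≤ T ∧ ∑ i : Fin d, (P i.succ - x0 i) ^ 2 ≤ (T - P 0) ^ 2}

/-- `u` is a smooth wave map, into hyperbolic space, on (a neighbourhood of) the set `Ω` of
space-time, with initial position `u0` and initial velocity `u1` at time `0` -/
structure IsWaveMap (Ω : Set (Fin (d + 1) → ℝ)) (u0 u1 : (Fin d → ℝ) → (Fin (n + 1) → ℝ))
    (u : (Fin (d + 1) → ℝ) → (Fin (n + 1) → ℝ)) : Prop where
  smooth : ∃ O : Set (Fin (d + 1) → ℝ), IsOpen O ∧ Ω ⊆ O ∧ ContDiffOn ℝ (⊤ : ℕ∞) u O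
  pos : ∀ P ∈ Ω, 0 < u P (Fin.last n)
  eqn : ∀ P ∈ Ω, ∀ k, wm u P k = 0
  init : ∀ x : Fin d → ℝ, (Fin.cons 0 x : Fin (d + 1) → ℝ) ∈ Ω →
    u (Fin.cons 0 x) = u0 x ∧ fderiv ℝ u (Fin.cons 0 x) (Pi.single 0 1) = u1 x

lemma IsWaveMap.mono {Ω Ω' : Set (Fin (d + 1) → ℝ)} {u0 u1 : (Fin d → ℝ) → (Fin (n + 1) → ℝ)}
    {u : (Fin (d + 1) → ℝ) → (Fin (n + 1) → ℝ)} (h : IsWaveMap Ω u0 u1 u) (hΩ : Ω' ⊆ Ω) :
    IsWaveMap Ω' u0 u1 u := by
  obtain ⟨O, hO, h1, h2⟩ := h.smooth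
  exact ⟨⟨O, hO, hΩ.trans h1, h2⟩, fun P hP => h.pos P (hΩ hP), fun P hP => h.eqn P (hΩ hP),
    fun x hx => h.init x (hΩ hx)⟩

lemma cone_lt {T : ℝ} {x0 : Fin d → ℝ} {P : Fin (d + 1) → ℝ}
    (hP : P ∈ cone T x0 \ {(Fin.cons T x0 : Fin (d + 1) → ℝ)}) : P 0 < T := by
  obtain ⟨⟨h0, h1, h2⟩, h3⟩ := hP
  refine lt_of_le_of_ne h1 fun h => h3 ?_
  rw [Set.mem_singleton_iff]
  rw [h, sub_self, zero_pow two_ne_zero] at h2
  have h4 := (Finset.sum_eq_zero_iff_of_nonneg (s := Finset.univ)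
    (f := fun i : Fin d => (P i.succ - x0 i) ^ 2) (fun i _ => sq_nonneg _)).1
    (le_antisymm h2 (Finset.sum_nonneg fun i _ => sq_nonneg _))
  funext i
  refine Fin.cases ?_ (fun i => ?_) i
  · exact h
  · have := h4 i (Finset.mem_univ i)
    rw [Fin.cons_succ]
    have h5 := pow_eq_zero_iff (two_ne_zero) |>.1 this
    linarith

/-- the affine maps -/
lemma aff_cons (l t : ℝ) (x0 y : Fin d → ℝ) : l • (Fin.cons t y : Fin (d + 1) → ℝ) +
    Fin.cons 0 x0 = Fin.cons (l * t) (x0 + l • y) := by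
  funext i
  refine Fin.cases ?_ (fun i => ?_) i
  · simp
  · simp [add_comm]

lemma nsq_sub (P : Fin (d + 1) → ℝ) (l : ℝ) (x0 : Fin d → ℝ) :
    nsq (l⁻¹ • P + -(l⁻¹ • (Fin.cons 0 x0 : Fin (d + 1) → ℝ))) =
      (l⁻¹) ^ 2 * ∑ i : Fin d, (P i.succ - x0 i) ^ 2 := by
  unfold nsq
  rw [Finset.mul_sum]
  refine Finset.sum_congr rfl fun i _ => ?_
  simp only [Pi.add_apply, Pi.smul_apply, Pi.neg_apply, smul_eq_mul, Fin.cons_succ]
  ring

section
variable {V : (Fin (d + 1) → ℝ) → (Fin (n + 1) → ℝ)} {h : 4 ≤ d + 1}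
  (hV : ContDiffOn ℝ (⊤ : ℕ∞) V (OV h)) (hVp : ∀ Q ∈ OV h, 0 < V Q (Fin.last n))
  (hVe : ∀ Q ∈ OV h, ∀ k, wm V Q k = 0) {v0 v1 : (Fin d → ℝ) → (Fin (n + 1) → ℝ)}
  (x0 : Fin d → ℝ)

lemma mem_OV_of_cone {l : ℝ} (hl : 0 < l) {P : Fin (d + 1) → ℝ}
    (hP : P ∈ cone l x0 \ {(Fin.cons l x0 : Fin (d + 1) → ℝ)}) :
    l⁻¹ • P + -(l⁻¹ • (Fin.cons 0 x0 : Fin (d + 1) → ℝ)) ∈ OV h := by
  have h1 := cone_lt hP
  obtain ⟨⟨h0, _, h2⟩, _⟩ := hP
  have e0 : (l⁻¹ • P + -(l⁻¹ • (Fin.cons 0 x0 : Fin (d + 1) → ℝ))) 0 = l⁻¹ * P 0 := by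
    simp
  have h3 : l⁻¹ * P 0 < 1 := by
    rw [inv_mul_lt_iff₀ hl, mul_one]; exact h1
  apply mem_OV
  · rw [e0]; exact h3
  · rw [e0, nsq_sub]
    have h4 : (l⁻¹) ^ 2 * ∑ i : Fin d, (P i.succ - x0 i) ^ 2 ≤ (l⁻¹) ^ 2 * (l - P 0) ^ 2 :=
      mul_le_mul_of_nonneg_left h2 (by positivity)
    have h5 : (l⁻¹) ^ 2 * (l - P 0) ^ 2 = (1 - l⁻¹ * P 0) ^ 2 := by
      rw [← mul_pow, mul_sub, inv_mul_cancel₀ hl.ne']
    have h6 : 0 < (1 - l⁻¹ * P 0) ^ 2 := by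
      have : 0 < 1 - l⁻¹ * P 0 := by linarith
      positivity
    rw [h5] at h4
    linarith

include hV hVp hVe in
/-- existence -/
theorem exists_sol {l : ℝ} (hl : 0 < l) :
    IsWaveMap (cone l x0 \ {(Fin.cons l x0 : Fin (d + 1) → ℝ)}) (U0 V v0 x0 l) (U1 V v1 x0 l)
      (fun P => V (l⁻¹ • P + -(l⁻¹ • (Fin.cons 0 x0 : Fin (d + 1) → ℝ)))) := by
  set b : Fin (d + 1) → ℝ := -(l⁻¹ • (Fin.cons 0 x0 : Fin (d + 1) → ℝ)) with hb
  refine ⟨⟨{P | l⁻¹ • P + b ∈ OV h}, ?_, ?_, ?_⟩, ?_, ?_, ?_⟩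
  · exact (isOpen_OV h).preimage (by fun_prop)
  · intro P hP
    exact mem_OV_of_cone x0 hl hP
  · exact hV.comp (ContDiff.contDiffOn (by fun_prop)) fun P hP => hP
  · intro P hP
    exact hVp _ (mem_OV_of_cone x0 hl hP)
  · intro P hP k
    rw [wm_scale l⁻¹ b (isOpen_OV h) hV (mem_OV_of_cone x0 hl hP), hVe _ (mem_OV_of_cone x0 hl hP),
      mul_zero]
  · intro x hx
    have hm := mem_OV_of_cone (h := h) x0 hl hx
    obtain ⟨⟨_, _, h2⟩, _⟩ := hx
    have e0 : l⁻¹ • (Fin.cons 0 x : Fin (d + 1) → ℝ) + b = Fin.cons 0 (zz l x0 x) := by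
      funext i
      rw [hb]
      refine Fin.cases ?_ (fun i => ?_) i
      · simp
      · unfold zz
        simp
        ring
    have hns : ns (zz l x0 x) ≤ 33 / 32 := by
      have h3 := nsq_sub (Fin.cons 0 x) l x0
      rw [e0, ns_cons] at h3
      rw [h3]
      simp only [Fin.cons_succ, Fin.cons_zero, sub_zero] at h2 ⊢
      have h4 := mul_le_mul_of_nonneg_left h2 (by positivity : 0 ≤ (l⁻¹) ^ 2)
      have h5 : (l⁻¹) ^ 2 * l ^ 2 = 1 := by
        rw [← mul_pow, inv_mul_cancel₀ hl.ne', one_pow]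
      rw [h5] at h4
      linarith
    have hc := c0_one hns
    constructor
    · show V (l⁻¹ • (Fin.cons 0 x : Fin (d + 1) → ℝ) + b) = _
      rw [e0]
      unfold U0 F0
      rw [hc]
      simp
    · rw [fderiv_scale l⁻¹ b ((hV.contDiffAt ((isOpen_OV h).mem_nhds hm)).differentiableAt (by simp)),
        e0]
      unfold U1 F1
      rw [hc]
      simp

include hV hVp hVe in
/-- uniqueness on the axis -/
theorem axis {l : ℝ} (hl : 0 < l) {u : (Fin (d + 1) → ℝ) → (Fin (n + 1) → ℝ)}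
    (hu : IsWaveMap (cone l x0 \ {(Fin.cons l x0 : Fin (d + 1) → ℝ)}) (U0 V v0 x0 l)
      (U1 V v1 x0 l) u) {t : ℝ} (ht0 : 0 ≤ t) (ht1 : t < 1) :
    u (Fin.cons (l * t) x0) = V (Fin.cons t 0) := by
  obtain ⟨O, hO, hΩO, huO⟩ := hu.smooth
  set c : Fin (d + 1) → ℝ := Fin.cons 0 x0 with hc
  set T : ℝ := (1 + t) / 2 with hT
  have hT0 : 0 < T := by rw [hT]; linarith
  have hT1 : T < 1 := by rw [hT]; linarith
  have htT : t ≤ T := by rw [hT]; linarith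
  have hmem : ∀ Y ∈ Kc d 1 T, l • Y + c ∈ cone l x0 \ {(Fin.cons l x0 : Fin (d + 1) → ℝ)} := by
    rintro Y ⟨h0, h1, h2⟩
    have e0 : (l • Y + c) 0 = l * Y 0 := by rw [hc]; simp
    refine ⟨⟨?_, ?_, ?_⟩, ?_⟩
    · rw [e0]; positivity
    · rw [e0]
      calc l * Y 0 ≤ l * 1 := mul_le_mul_of_nonneg_left (h1.trans hT1.le) hl.le
        _ = l := mul_one l
    · rw [e0]
      have e1 : ∀ i : Fin d, ((l • Y + c) i.succ - x0 i) ^ 2 = l ^ 2 * Y i.succ ^ 2 := by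
        intro i
        rw [hc]
        simp only [Pi.add_apply, Pi.smul_apply, smul_eq_mul, Fin.cons_succ]
        ring
      rw [Finset.sum_congr rfl fun i _ => e1 i, ← Finset.mul_sum]
      have e2 : (l - l * Y 0) ^ 2 = l ^ 2 * (1 - Y 0) ^ 2 := by ring
      rw [e2]
      exact mul_le_mul_of_nonneg_left h2 (by positivity)
    · intro h3
      rw [Set.mem_singleton_iff] at h3
      have h4 := congrFun h3 0
      rw [e0, Fin.cons_zero] at h4
      have h5 : Y 0 = 1 := by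
        have : l * Y 0 = l * 1 := by rw [h4, mul_one]
        exact mul_left_cancel₀ hl.ne' this
      linarith
  have hKV : ∀ Y ∈ Kc d 1 T, Y ∈ OV h := by
    rintro Y ⟨h0, h1, h2⟩
    apply mem_OV
    · linarith
    · have : 0 < (1 - Y 0) ^ 2 := by
        have : 0 < 1 - Y 0 := by linarith
        positivity
      linarith
  have hO' : IsOpen ({Y | l • Y + c ∈ O} ∩ OV h) :=
    (hO.preimage (by fun_prop)).inter (isOpen_OV h)
  have hfin := unique_cone hT0 hT1 hO' (fun Y hY => ⟨hΩO (hmem Y hY), hKV Y hY⟩)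
    (u := fun Y => u (l • Y + c)) (v := V)
    (huO.comp (ContDiff.contDiffOn (by fun_prop)) fun Y hY => hY.1)
    (hV.mono inter_subset_right)
    (fun Y hY => hu.pos _ (hmem Y hY)) (fun Y hY => hVp Y (hKV Y hY))
    (fun Y hY k => by
      rw [wm_scale l c hO huO (hΩO (hmem Y hY)), hu.eqn _ (hmem Y hY), mul_zero])
    (fun Y hY k => hVe Y (hKV Y hY) k)
    (by
      intro Y hY hY0
      obtain ⟨y, rfl⟩ : ∃ y : Fin d → ℝ, Y = Fin.cons 0 y :=
        ⟨fun i => Y i.succ, by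
          funext i
          refine Fin.cases ?_ (fun i => ?_) i
          · exact hY0
          · rfl⟩
      have hns : ns y ≤ 33 / 32 := by
        have h2 := hY.2.2
        rw [ns_cons] at h2
        have e : (1 - (Fin.cons 0 y : Fin (d + 1) → ℝ) 0) ^ 2 = 1 := by simp
        rw [e] at h2
        linarith
      have hcc := c0_one hns
      have hz : zz l x0 (x0 + l • y) = y := by
        unfold zz
        rw [add_sub_cancel_left, smul_smul, inv_mul_cancel₀ hl.ne', one_smul]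
      have e1 : l • (Fin.cons 0 y : Fin (d + 1) → ℝ) + c = Fin.cons 0 (x0 + l • y) := by
        rw [hc, aff_cons, mul_zero]
      have hm := hmem _ hY
      have hd : DifferentiableAt ℝ u (l • (Fin.cons 0 y : Fin (d + 1) → ℝ) + c) :=
        (huO.contDiffAt (hO.mem_nhds (hΩO hm))).differentiableAt (by simp)
      have hm' := hm
      rw [e1] at hm'
      obtain ⟨i0, i1⟩ := hu.init _ hm'
      constructor
      · show u (l • (Fin.cons 0 y : Fin (d + 1) → ℝ) + c) = _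
        rw [e1, i0]
        unfold U0 F0
        rw [hz, hcc]
        simp
      · rw [fderiv_scale l c hd, e1, i1]
        unfold U1 F1
        rw [hz, hcc]
        simp [smul_smul, mul_inv_cancel₀ hl.ne'])
    (Fin.cons t 0) (by simpa using ht0) (by simpa using htT) (by
      rw [ns_cons]
      have : 0 < 1 - t := by linarith
      simp [ns]
      positivity)
  have e2 : l • (Fin.cons t 0 : Fin (d + 1) → ℝ) + c = Fin.cons (l * t) x0 := by
    rw [hc, aff_cons, smul_zero, add_zero]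
  simp only [e2] at hfin
  exact hfin

end

theorem main (d n : ℕ) (hd : 3 ≤ d) (hn : 1 ≤ n) (v0 v1 : (Fin d → ℝ) → (Fin (n + 1) → ℝ))
    (hv0 : ContDiff ℝ (⊤ : ℕ∞) v0) (hv1 : ContDiff ℝ (⊤ : ℕ∞) v1)
    (hpos : ∀ x, 0 < v0 x (Fin.last n)) (x0 : Fin d → ℝ) (δ : ℝ) (hδ : 0 < δ) :
    ∃ (u0 u1 : (Fin d → ℝ) → (Fin (n + 1) → ℝ)) (T : ℝ),
      ContDiff ℝ (⊤ : ℕ∞) u0 ∧ ContDiff ℝ (⊤ : ℕ∞) u1 ∧ (∀ x, 0 < u0 x (Fin.last n)) ∧
      (∀ x, δ ^ 2 ≤ ∑ i, (x i - x0 i) ^ 2 → u0 x = v0 x ∧ u1 x = v1 x) ∧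
      (∀ m : ℕ, 2 * m < d → ∫ x, ‖iteratedFDeriv ℝ m (fun x => u0 x - v0 x) x‖ ^ 2 < δ) ∧
      (∀ m : ℕ, 2 * (m + 1) < d →
        ∫ x, ‖iteratedFDeriv ℝ m (fun x => u1 x - v1 x) x‖ ^ 2 < δ) ∧
      0 < T ∧ T < δ ∧
      (∃ u, IsWaveMap (cone T x0 \ {Fin.cons T x0}) u0 u1 u) ∧
      (∀ u, IsWaveMap (cone T x0 \ {Fin.cons T x0}) u0 u1 u →
        Tendsto (fun t => u (Fin.cons t x0) (Fin.last n)) (𝓝[<] T) (𝓝 0)) ∧
      ∀ (Ω : Set (Fin (d + 1) → ℝ)) (u : (Fin (d + 1) → ℝ) → (Fin (n + 1) → ℝ)),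
        cone T x0 ⊆ Ω → ¬ IsWaveMap Ω u0 u1 u := by
  have h4 : 4 ≤ d + 1 := by omega
  obtain ⟨a, X, Z, hp⟩ := Pool.Agent.H733R2.exists_profile
  have hX : Sm X := hp.smoothX
  have hZ : Sm Z := hp.smoothZ
  have hU : ContDiffOn ℝ (⊤ : ℕ∞) (UU a X Z) Om := fun Y hY =>
    (Pool.Agent.H733R2.contDiffAt_UU hX hZ hY).contDiffWithinAt
  set V : (Fin (d + 1) → ℝ) → (Fin (n + 1) → ℝ) := lft n h4 (UU a X Z) with hVdef
  have hV : ContDiffOn ℝ (⊤ : ℕ∞) V (OV h4) := contDiffOn_lft hU h4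
  have hVl : ∀ Q, V Q (Fin.last n) = UU a X Z (prj h4 Q) 2 := by
    intro Q
    rw [hVdef]
    unfold lft
    rw [emb_apply, if_pos rfl]
  have hVp : ∀ Q ∈ OV h4, 0 < V Q (Fin.last n) := by
    intro Q hQ
    rw [hVl]
    exact Pool.Agent.H733R2.UU_pos hp hQ
  have hVe : ∀ Q ∈ OV h4, ∀ k, wm V Q k = 0 := fun Q hQ k => wm_model hp h4 hn hQ k
  obtain ⟨C0, hC0, hs0⟩ := small0 hV hv0 x0
  obtain ⟨C1, hC1, hs1⟩ := small1 hV hv1 x0
  set K : ℝ := C0 + C1 + 1 with hK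
  have hKpos : 0 < K := by positivity
  set l : ℝ := min (min 1 (δ / 2)) (δ / (2 * K)) with hl
  have hl0 : 0 < l := lt_min (lt_min one_pos (by positivity)) (by positivity)
  have hl1 : l ≤ 1 := (min_le_left _ _).trans (min_le_left _ _)
  have hl2 : l ≤ δ / 2 := (min_le_left _ _).trans (min_le_right _ _)
  have hl3 : l ≤ δ / (2 * K) := min_le_right _ _
  have hKl : K * l ≤ δ / 2 := by
    calc K * l ≤ K * (δ / (2 * K)) := mul_le_mul_of_nonneg_left hl3 hKpos.le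
      _ = δ / 2 := by field_simp
  have hb0 : C0 * l < δ := by
    have : C0 * l ≤ K * l := mul_le_mul_of_nonneg_right (by rw [hK]; linarith) hl0.le
    linarith
  have hb1 : C1 * l < δ := by
    have : C1 * l ≤ K * l := mul_le_mul_of_nonneg_right (by rw [hK]; linarith) hl0.le
    linarith
  have haxis : ∀ u, IsWaveMap (cone l x0 \ {(Fin.cons l x0 : Fin (d + 1) → ℝ)}) (U0 V v0 x0 l)
      (U1 V v1 x0 l) u →
      Tendsto (fun t => u (Fin.cons t x0) (Fin.last n)) (𝓝[<] l) (𝓝 0) := by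
    intro u hu
    have hval : ∀ s, 0 ≤ s → s < l → u (Fin.cons s x0) (Fin.last n) =
        (1 - l⁻¹ * s) ^ a * Z (-1) := by
      intro s hs0 hs1
      have h1 := axis hV hVp hVe x0 hl0 hu (t := l⁻¹ * s) (by positivity)
        (by rw [inv_mul_lt_iff₀ hl0, mul_one]; exact hs1)
      rw [← mul_assoc, mul_inv_cancel₀ hl0.ne', one_mul] at h1
      rw [h1, hVl]
      show fld a Z (prj h4 (Fin.cons (l⁻¹ * s) 0)) = _
      unfold fld ww
      have e1 : prj h4 (Fin.cons (l⁻¹ * s) 0) 0 = l⁻¹ * s := rfl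
      have e2 : Pool.Agent.H733R2.nsq (prj h4 (Fin.cons (l⁻¹ * s) 0)) = 0 := by
        refine le_antisymm ((nsq_prj h4 _).trans ?_) (Pool.Agent.H733R2.nsq_nonneg _)
        rw [ns_cons]
        simp [ns]
      rw [e1, e2]
      simp
    have hcont : Continuous (fun s : ℝ => (1 - l⁻¹ * s) ^ a * Z (-1)) := by
      refine Continuous.mul ?_ continuous_const
      exact Continuous.rpow_const (by fun_prop) (fun _ => Or.inr hp.a_pos.le)
    have ht2 : Tendsto (fun s : ℝ => (1 - l⁻¹ * s) ^ a * Z (-1)) (𝓝[<] l) (𝓝 0) := by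
      have h1 := (hcont.tendsto l).mono_left (nhdsWithin_le_nhds (s := Iio l))
      rw [inv_mul_cancel₀ hl0.ne', sub_self, Real.zero_rpow hp.a_pos.ne', zero_mul] at h1
      exact h1
    refine ht2.congr' ?_
    have : Ioo (0 : ℝ) l ∈ 𝓝[<] l := Ioo_mem_nhdsLT hl0
    filter_upwards [this] with s hs
    exact (hval s hs.1.le hs.2).symm
  refine ⟨U0 V v0 x0 l, U1 V v1 x0 l, l, contDiff_U0 hV hv0, contDiff_U1 hV hv1,
    U0_pos hVp hpos, ?_, ?_, ?_, hl0, by linarith, ⟨_, exists_sol hV hVp hVe x0 hl0⟩, haxis, ?_⟩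
  · intro x hx
    have hns : 17 / 16 ≤ ns (zz l x0 x) := by
      have e : ns (zz l x0 x) = (l⁻¹) ^ 2 * ∑ i, (x i - x0 i) ^ 2 := by
        unfold ns zz
        rw [Finset.mul_sum]
        refine Finset.sum_congr rfl fun i _ => ?_
        simp only [Pi.smul_apply, Pi.sub_apply, smul_eq_mul]
        ring
      rw [e]
      have h1 : (2 * l) ^ 2 ≤ ∑ i, (x i - x0 i) ^ 2 :=
        (pow_le_pow_left₀ (by positivity) (by linarith) 2).trans hx
      have h2 := mul_le_mul_of_nonneg_left h1 (by positivity : 0 ≤ (l⁻¹) ^ 2)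
      have h3 : (l⁻¹) ^ 2 * (2 * l) ^ 2 = 4 := by
        rw [← mul_pow]
        have : l⁻¹ * (2 * l) = 2 := by
          rw [mul_comm 2 l, ← mul_assoc, inv_mul_cancel₀ hl0.ne', one_mul]
        rw [this]; norm_num
      rw [h3] at h2
      linarith
    exact ⟨U0_eq x0 hns, U1_eq x0 hns⟩
  · intro m hm
    exact (hs0 m hm l hl0 hl1).trans_lt hb0
  · intro m hm
    exact (hs1 m hm l hl0 hl1).trans_lt hb1
  · intro Ω u hΩ hu
    have h1 := haxis u (hu.mono (sdiff_subset.trans hΩ))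
    obtain ⟨O, hO, hΩO, huO⟩ := hu.smooth
    have hv : (Fin.cons l x0 : Fin (d + 1) → ℝ) ∈ cone l x0 := by
      refine ⟨?_, ?_, ?_⟩
      · show 0 ≤ l; exact hl0.le
      · show l ≤ l; exact le_rfl
      · simp
    have hcu : ContinuousAt u (Fin.cons l x0) :=
      (huO.contDiffAt (hO.mem_nhds (hΩO (hΩ hv)))).continuousAt
    have hcc : Continuous (fun t : ℝ => (Fin.cons t x0 : Fin (d + 1) → ℝ)) := by
      refine continuous_pi fun i => ?_
      refine Fin.cases ?_ (fun i => ?_) i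
      · exact continuous_id
      · exact continuous_const
    have h2 : Tendsto (fun t => u (Fin.cons t x0) (Fin.last n)) (𝓝[<] l)
        (𝓝 (u (Fin.cons l x0) (Fin.last n))) := by
      have h3 : ContinuousAt (fun t : ℝ => u (Fin.cons t x0)) l :=
        ContinuousAt.comp (f := fun t : ℝ => (Fin.cons t x0 : Fin (d + 1) → ℝ)) hcu hcc.continuousAt
      have h4 : ContinuousAt (fun t : ℝ => u (Fin.cons t x0) (Fin.last n)) l :=
        (continuous_apply (Fin.last n)).continuousAt.comp h3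
      exact h4.tendsto.mono_left nhdsWithin_le_nhds
    have h5 := tendsto_nhds_unique h1 h2
    exact (hu.pos _ (hΩ hv)).ne h5

end Pool.Agent.Y276.WM
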