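import Pool.Agent.Y276.WM.Mod

set_option autoImplicit false
set_option linter.unusedSectionVars false

namespace Pool.Agent.Y276.WM

open Set Filter Topology
open Pool.Agent.H733R2 (UU Om Profile fld ww Sm isOpen_Om)

variable {d n : ℕ}

/-! ### scaling -/

lemma hasFDerivAt_aff (c : ℝ) (b Y : Fin (d + 1) → ℝ) :
    HasFDerivAt (fun Y : Fin (d + 1) → ℝ => c • Y + b)
      (c • ContinuousLinearMap.id ℝ (Fin (d + 1) → ℝ)) Y :=
  ((hasFDerivAt_id Y).const_smul c).add_const b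

lemma fderiv_scale {F : Type} [NormedAddCommGroup F] [NormedSpace ℝ F] (c : ℝ)
    (b : Fin (d + 1) → ℝ) {u : (Fin (d + 1) → ℝ) → F} {Y : Fin (d + 1) → ℝ}
    (hu : DifferentiableAt ℝ u (c • Y + b)) (v : Fin (d + 1) → ℝ) :
    fderiv ℝ (fun Y => u (c • Y + b)) Y v = c • fderiv ℝ u (c • Y + b) v := by
  have h := hu.hasFDerivAt.comp Y (hasFDerivAt_aff c b Y)
  have h2 : HasFDerivAt (fun Y => u (c • Y + b)) _ Y := h
  rw [h2.fderiv]
  show fderiv ℝ u (c • Y + b) (c • v) = _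
  rw [map_smul]

lemma wm_scale (c : ℝ) (b : Fin (d + 1) → ℝ) {u : (Fin (d + 1) → ℝ) → (Fin (n + 1) → ℝ)}
    {O : Set (Fin (d + 1) → ℝ)} (hO : IsOpen O) (hu : ContDiffOn ℝ (⊤ : ℕ∞) u O)
    {Y : Fin (d + 1) → ℝ} (hY : c • Y + b ∈ O) (k : Fin (n + 1)) :
    wm (fun Y => u (c • Y + b)) Y k = c ^ 2 * wm u (c • Y + b) k := by
  have hdiff : ∀ Y : Fin (d + 1) → ℝ, c • Y + b ∈ O → DifferentiableAt ℝ u (c • Y + b) :=
    fun Y hY => (hu.contDiffAt (hO.mem_nhds hY)).differentiableAt (by simp)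
  have hop : IsOpen {Y : Fin (d + 1) → ℝ | c • Y + b ∈ O} :=
    hO.preimage (by fun_prop)
  have hsec : ∀ μ : Fin (d + 1), fderiv ℝ (fun Y => fderiv ℝ (fun Y => u (c • Y + b)) Y
      (Pi.single μ 1) k) Y (Pi.single μ 1) =
      c ^ 2 * fderiv ℝ (fun Y => fderiv ℝ u Y (Pi.single μ 1) k) (c • Y + b) (Pi.single μ 1) := by
    intro μ
    have h0 : (fun Y => fderiv ℝ (fun Y => u (c • Y + b)) Y (Pi.single μ 1) k) =ᶠ[𝓝 Y]
        fun Y => c * (fun Z => fderiv ℝ u Z (Pi.single μ 1) k) (c • Y + b) := by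
      filter_upwards [hop.mem_nhds hY] with Y' hY'
      rw [fderiv_scale c b (hdiff Y' hY')]
      rfl
    rw [h0.fderiv_eq]
    have hd : ContDiffAt ℝ (⊤ : ℕ∞) (fderiv ℝ u) (c • Y + b) :=
      (hu.contDiffAt (hO.mem_nhds hY)).fderiv_right (by simp)
    have hd1 : ContDiffAt ℝ (⊤ : ℕ∞) (fun Z => fderiv ℝ u Z (Pi.single μ 1)) (c • Y + b) :=
      hd.clm_apply contDiffAt_const
    have hd2 : DifferentiableAt ℝ (fun Z => fderiv ℝ u Z (Pi.single μ 1) k) (c • Y + b) :=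
      (contDiffAt_pi.1 hd1 k).differentiableAt (by simp)
    have hd3 : DifferentiableAt ℝ (fun Y => (fun Z => fderiv ℝ u Z (Pi.single μ 1) k) (c • Y + b))
        Y := DifferentiableAt.comp (g := fun Z => fderiv ℝ u Z (Pi.single μ 1) k)
          (f := fun Y : Fin (d + 1) → ℝ => c • Y + b) Y hd2 (hasFDerivAt_aff c b Y).differentiableAt
    rw [fderiv_const_mul hd3, smul_apply, smul_eq_mul, fderiv_scale c b hd2, smul_eq_mul]
    ring
  unfold wm
  rw [Finset.mul_sum]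
  refine Finset.sum_congr rfl fun μ _ => ?_
  rw [hsec, fderiv_scale c b (hdiff Y hY)]
  have h1 : ∑ i : Fin (n + 1), ∑ j : Fin (n + 1), Gam (u (c • Y + b) (Fin.last n)) k i j *
        (c • fderiv ℝ u (c • Y + b) (Pi.single μ 1)) i *
        (c • fderiv ℝ u (c • Y + b) (Pi.single μ 1)) j =
      c ^ 2 * ∑ i : Fin (n + 1), ∑ j : Fin (n + 1), Gam (u (c • Y + b) (Fin.last n)) k i j *
        fderiv ℝ u (c • Y + b) (Pi.single μ 1) i * fderiv ℝ u (c • Y + b) (Pi.single μ 1) j := by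
    rw [Finset.mul_sum]
    refine Finset.sum_congr rfl fun i _ => ?_
    rw [Finset.mul_sum]
    refine Finset.sum_congr rfl fun j _ => ?_
    rw [Pi.smul_apply, Pi.smul_apply, smul_eq_mul, smul_eq_mul]
    ring
  rw [h1]
  ring

/-! ### the cut off data -/

/-- squared norm -/
noncomputable def ns (y : Fin d → ℝ) : ℝ := ∑ i, y i ^ 2

/-- the cutoff -/
noncomputable def c0 (y : Fin d → ℝ) : ℝ := Real.smoothTransition (34 - 32 * ns y)

lemma contDiff_ns {m : WithTop ℕ∞} : ContDiff ℝ m (ns (d := d)) := by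
  unfold ns; fun_prop

lemma contDiff_c0 : ContDiff ℝ (⊤ : ℕ∞) (c0 (d := d)) := by
  unfold c0
  exact Real.smoothTransition.contDiff.comp
    (contDiff_const.sub (contDiff_const.mul contDiff_ns))

lemma c0_zero {y : Fin d → ℝ} (h : 17 / 16 ≤ ns y) : c0 y = 0 := by
  unfold c0
  apply Real.smoothTransition.zero_of_nonpos
  linarith

lemma c0_one {y : Fin d → ℝ} (h : ns y ≤ 33 / 32) : c0 y = 1 := by
  unfold c0
  apply Real.smoothTransition.one_of_one_le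
  linarith

lemma c0_nonneg (y : Fin d → ℝ) : 0 ≤ c0 y := Real.smoothTransition.nonneg _

lemma c0_le (y : Fin d → ℝ) : c0 y ≤ 1 := Real.smoothTransition.le_one _

lemma ns_cons (t : ℝ) (y : Fin d → ℝ) : nsq (Fin.cons t y : Fin (d + 1) → ℝ) = ns y := by
  unfold nsq ns
  simp only [Fin.cons_succ]

lemma nsq_prj (h : 4 ≤ d + 1) (Y : Fin (d + 1) → ℝ) :
    Pool.Agent.H733R2.nsq (prj h Y) ≤ nsq Y := by
  unfold Pool.Agent.H733R2.nsq
  rw [prj_apply, prj_apply, prj_apply]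
  have hd : 3 ≤ d := by omega
  have h1 : ∀ i : Fin 3, (Fin.castLE h i.succ) = (Fin.castLE hd i).succ := fun i => rfl
  have e1 : Fin.castLE h 1 = (Fin.castLE hd 0).succ := rfl
  have e2 : Fin.castLE h 2 = (Fin.castLE hd 1).succ := rfl
  have e3 : Fin.castLE h 3 = (Fin.castLE hd 2).succ := rfl
  rw [e1, e2, e3]
  have h2 : ∑ i : Fin 3, Y (Fin.castLE hd i).succ ^ 2 ≤ ∑ i : Fin d, Y i.succ ^ 2 := by
    have h3 := Finset.sum_map Finset.univ (Fin.castLEEmb hd) (fun i => Y i.succ ^ 2)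
    refine (le_of_eq h3.symm).trans ?_
    exact Finset.sum_le_sum_of_subset_of_nonneg (Finset.subset_univ _) fun i _ _ => sq_nonneg _
  rw [Fin.sum_univ_three] at h2
  exact h2

lemma mem_OV (h : 4 ≤ d + 1) {Y : Fin (d + 1) → ℝ} (h0 : Y 0 < 1)
    (h1 : nsq Y < 9 / 8 * (1 - Y 0) ^ 2) : Y ∈ OV h := by
  refine ⟨?_, ?_⟩
  · show prj h Y 0 < 1
    exact h0
  · exact lt_of_le_of_lt (nsq_prj h Y) h1

lemma contDiff_cons {m : WithTop ℕ∞} :
    ContDiff ℝ m (fun y : Fin d → ℝ => (Fin.cons 0 y : Fin (d + 1) → ℝ)) := by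
  rw [contDiff_pi]
  intro i
  refine Fin.cases ?_ (fun j => ?_) i
  · exact contDiff_const
  · exact contDiff_apply ℝ ℝ j

section
variable {V : (Fin (d + 1) → ℝ) → (Fin (n + 1) → ℝ)} {h : 4 ≤ d + 1}
  (hV : ContDiffOn ℝ (⊤ : ℕ∞) V (OV h))

/-- cut off initial position -/
noncomputable def F0 (V : (Fin (d + 1) → ℝ) → (Fin (n + 1) → ℝ)) (y : Fin d → ℝ) :
    Fin (n + 1) → ℝ := c0 y • V (Fin.cons 0 y)

/-- cut off initial velocity -/
noncomputable def F1 (V : (Fin (d + 1) → ℝ) → (Fin (n + 1) → ℝ)) (y : Fin d → ℝ) :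
    Fin (n + 1) → ℝ := c0 y • fderiv ℝ V (Fin.cons 0 y) (Pi.single 0 1)

include hV in
lemma contDiff_cut {G : (Fin (d + 1) → ℝ) → (Fin (n + 1) → ℝ)}
    (hG : ∀ P ∈ OV h, ContDiffAt ℝ (⊤ : ℕ∞) G P) :
    ContDiff ℝ (⊤ : ℕ∞) fun y : Fin d → ℝ => c0 y • G (Fin.cons 0 y) := by
  rw [contDiff_iff_contDiffAt]
  intro y
  by_cases hy : ns y < 9 / 8
  · have hm : (Fin.cons 0 y : Fin (d + 1) → ℝ) ∈ OV h := by
      apply mem_OV
      · show (0 : ℝ) < 1; norm_num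
      · rw [ns_cons]
        show ns y < 9 / 8 * (1 - (0 : ℝ)) ^ 2
        linarith
    exact contDiff_c0.contDiffAt.smul ((hG _ hm).comp y contDiff_cons.contDiffAt)
  · push Not at hy
    have hop : IsOpen {y : Fin d → ℝ | 17 / 16 < ns y} :=
      isOpen_lt continuous_const (contDiff_ns (m := 0)).continuous
    have hmem : y ∈ {y : Fin d → ℝ | 17 / 16 < ns y} := by
      show 17 / 16 < ns y
      linarith
    have h1 : (fun y : Fin d → ℝ => c0 y • G (Fin.cons 0 y)) =ᶠ[𝓝 y] fun _ => 0 := by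
      filter_upwards [hop.mem_nhds hmem] with y' hy'
      rw [c0_zero (le_of_lt hy'), zero_smul]
    exact contDiffAt_const.congr_of_eventuallyEq h1

include hV in
lemma contDiff_F0 : ContDiff ℝ (⊤ : ℕ∞) (F0 V) :=
  contDiff_cut hV fun P hP => hV.contDiffAt ((isOpen_OV h).mem_nhds hP)

include hV in
lemma contDiff_F1 : ContDiff ℝ (⊤ : ℕ∞) (F1 V) :=
  contDiff_cut hV fun P hP =>
    ((hV.contDiffAt ((isOpen_OV h).mem_nhds hP)).fderiv_right (by simp)).clm_apply contDiffAt_const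

end

/-- the rescaled variable -/
noncomputable def zz (l : ℝ) (x0 x : Fin d → ℝ) : Fin d → ℝ := l⁻¹ • (x - x0)

/-- glued initial position -/
noncomputable def U0 (V : (Fin (d + 1) → ℝ) → (Fin (n + 1) → ℝ)) (v0 : (Fin d → ℝ) → (Fin (n + 1) → ℝ))
    (x0 : Fin d → ℝ) (l : ℝ) (x : Fin d → ℝ) : Fin (n + 1) → ℝ :=
  F0 V (zz l x0 x) + (1 - c0 (zz l x0 x)) • v0 x

/-- glued initial velocity -/
noncomputable def U1 (V : (Fin (d + 1) → ℝ) → (Fin (n + 1) → ℝ)) (v1 : (Fin d → ℝ) → (Fin (n + 1) → ℝ))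
    (x0 : Fin d → ℝ) (l : ℝ) (x : Fin d → ℝ) : Fin (n + 1) → ℝ :=
  l⁻¹ • F1 V (zz l x0 x) + (1 - c0 (zz l x0 x)) • v1 x

lemma contDiff_zz {m : WithTop ℕ∞} (l : ℝ) (x0 : Fin d → ℝ) : ContDiff ℝ m (zz l x0) := by
  unfold zz; fun_prop

section
variable {V : (Fin (d + 1) → ℝ) → (Fin (n + 1) → ℝ)} {h : 4 ≤ d + 1}
  (hV : ContDiffOn ℝ (⊤ : ℕ∞) V (OV h)) {v0 v1 : (Fin d → ℝ) → (Fin (n + 1) → ℝ)}
  (hv0 : ContDiff ℝ (⊤ : ℕ∞) v0) (hv1 : ContDiff ℝ (⊤ : ℕ∞) v1)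
  {x0 : Fin d → ℝ} {l : ℝ}

include hV hv0 in
lemma contDiff_U0 : ContDiff ℝ (⊤ : ℕ∞) (U0 V v0 x0 l) := by
  unfold U0
  exact ((contDiff_F0 hV).comp (contDiff_zz l x0)).add
    ((contDiff_const.sub (contDiff_c0.comp (contDiff_zz l x0))).smul hv0)

include hV hv1 in
lemma contDiff_U1 : ContDiff ℝ (⊤ : ℕ∞) (U1 V v1 x0 l) := by
  unfold U1
  exact (((contDiff_F1 hV).comp (contDiff_zz l x0)).const_smul l⁻¹).add
    ((contDiff_const.sub (contDiff_c0.comp (contDiff_zz l x0))).smul hv1)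

lemma U0_pos (hVp : ∀ Q ∈ OV h, 0 < V Q (Fin.last n)) (hpos : ∀ x, 0 < v0 x (Fin.last n))
    (x : Fin d → ℝ) : 0 < U0 V v0 x0 l x (Fin.last n) := by
  have e : U0 V v0 x0 l x (Fin.last n) = c0 (zz l x0 x) * V (Fin.cons 0 (zz l x0 x)) (Fin.last n) +
      (1 - c0 (zz l x0 x)) * v0 x (Fin.last n) := rfl
  rw [e]
  by_cases hz : ns (zz l x0 x) < 17 / 16
  · have hm : (Fin.cons 0 (zz l x0 x) : Fin (d + 1) → ℝ) ∈ OV h := by
      apply mem_OV
      · show (0 : ℝ) < 1; norm_num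
      · rw [ns_cons]
        show ns (zz l x0 x) < 9 / 8 * (1 - (0 : ℝ)) ^ 2
        linarith
    exact Pool.Agent.H733R2.conv_pos (c0_nonneg _) (c0_le _) (hVp _ hm) (hpos x)
  · push Not at hz
    rw [c0_zero hz]
    have := hpos x
    linarith

end

end Pool.Agent.Y276.WM
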