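import Mathlib

set_option autoImplicit false

open MeasureTheory Set Finset

namespace Pool.Agent.Y276.WM

/-- partial derivative of the `j`-th component in direction `μ` -/
noncomputable def pd {d N : ℕ} (w : (Fin (d + 1) → ℝ) → (Fin N → ℝ)) (μ : Fin (d + 1)) (j : Fin N)
    (X : Fin (d + 1) → ℝ) : ℝ :=
  fderiv ℝ w X (Pi.single μ 1) j

/-- the wave operator on the `k`-th component -/
noncomputable def box {d N : ℕ} (w : (Fin (d + 1) → ℝ) → (Fin N → ℝ)) (k : Fin N)
    (X : Fin (d + 1) → ℝ) : ℝ :=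
  ∑ μ : Fin (d + 1), (if μ = 0 then (-1 : ℝ) else 1) *
    fderiv ℝ (fun Y => fderiv ℝ w Y (Pi.single μ 1) k) X (Pi.single μ 1)

/-- square of the distance to the axis -/
noncomputable def nsq {d : ℕ} (X : Fin (d + 1) → ℝ) : ℝ := ∑ i : Fin d, X i.succ ^ 2

namespace Energy

/-- truncated square -/
noncomputable def pq (s : ℝ) : ℝ := (max s 0) ^ 2

theorem pq_nonneg (s : ℝ) : 0 ≤ pq s := sq_nonneg _

theorem pq_zero {s : ℝ} (h : s ≤ 0) : pq s = 0 := by simp [pq, max_eq_right h]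

theorem pq_pos {s : ℝ} (h : 0 < s) : 0 < pq s := by
  simp only [pq, max_eq_left h.le]; positivity

theorem hasDerivAt_pq (s : ℝ) : HasDerivAt pq (2 * max s 0) s := by
  rcases lt_trichotomy s 0 with h | h | h
  · have h1 : pq =ᶠ[nhds s] fun _ => (0 : ℝ) := by
      filter_upwards [Iio_mem_nhds h] with x hx
      exact pq_zero (le_of_lt hx)
    rw [max_eq_right h.le, mul_zero]
    exact (hasDerivAt_const s (0 : ℝ)).congr_of_eventuallyEq h1
  · subst h
    rw [max_self, mul_zero]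
    rw [hasDerivAt_iff_isLittleO]
    have h2 : (fun x : ℝ => x ^ 2) =o[nhds 0] fun x : ℝ => x - 0 := by
      simpa using Asymptotics.isLittleO_pow_id (𝕜 := ℝ) (one_lt_two)
    refine Asymptotics.IsBigO.trans_isLittleO ?_ h2
    refine Asymptotics.IsBigO.of_bound 1 (Filter.Eventually.of_forall fun x => ?_)
    simp only [pq, max_self, smul_zero, sub_zero, one_mul, Real.norm_eq_abs]
    rcases le_total x 0 with hx | hx
    · rw [max_eq_right hx]; simp [sq_nonneg]
    · rw [max_eq_left hx]; simp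
  · have h1 : pq =ᶠ[nhds s] fun x => x ^ 2 := by
      filter_upwards [Ioi_mem_nhds h] with x hx
      have hx' : 0 ≤ x := le_of_lt hx
      simp only [pq, max_eq_left hx']
    rw [max_eq_left h.le]
    have := (hasDerivAt_pow 2 s)
    simp only [Nat.cast_ofNat, Nat.add_one_sub_one, pow_one] at this
    exact this.congr_of_eventuallyEq h1

theorem contDiff_pq : ContDiff ℝ 1 pq := by
  rw [contDiff_one_iff_deriv]
  refine ⟨fun s => (hasDerivAt_pq s).differentiableAt, ?_⟩
  have : deriv pq = fun s => 2 * max s 0 := by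
    funext s; exact (hasDerivAt_pq s).deriv
  rw [this]; fun_prop

variable {d N : ℕ}

/-! ### the pointwise inequalities -/

/-- energy density as a function of the values -/
noncomputable def en (w : Fin N → ℝ) (D : Fin (d + 1) → Fin N → ℝ) : ℝ :=
  (1 / 2) * ∑ j : Fin N, (w j ^ 2 + ∑ μ : Fin (d + 1), D μ j ^ 2)

theorem en_nonneg (w : Fin N → ℝ) (D : Fin (d + 1) → Fin N → ℝ) : 0 ≤ en w D := by
  unfold en; positivity

/-- the constant -/
noncomputable def kap (d N : ℕ) : ℝ := 4 * N * (d + 1)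

theorem kap_nonneg (d N : ℕ) : 0 ≤ kap d N := by unfold kap; positivity

theorem sum_sq_le (w : Fin N → ℝ) (D : Fin (d + 1) → Fin N → ℝ) :
    (∑ j : Fin N, (|w j| + ∑ μ : Fin (d + 1), |D μ j|)) ^ 2 ≤ kap d N * en w D := by
  have h1 : (∑ j : Fin N, (|w j| + ∑ μ : Fin (d + 1), |D μ j|)) ^ 2 ≤
      N * ∑ j : Fin N, (|w j| + ∑ μ : Fin (d + 1), |D μ j|) ^ 2 := by
    have := sq_sum_le_card_mul_sum_sq (s := (Finset.univ : Finset (Fin N)))
      (f := fun j => |w j| + ∑ μ : Fin (d + 1), |D μ j|)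
    simpa using this
  have h2 : ∀ j : Fin N, (|w j| + ∑ μ : Fin (d + 1), |D μ j|) ^ 2 ≤
      2 * (d + 1) * (w j ^ 2 + ∑ μ : Fin (d + 1), D μ j ^ 2) := by
    intro j
    have h3 : (∑ μ : Fin (d + 1), |D μ j|) ^ 2 ≤ (d + 1) * ∑ μ : Fin (d + 1), D μ j ^ 2 := by
      have := sq_sum_le_card_mul_sum_sq (s := (Finset.univ : Finset (Fin (d + 1))))
        (f := fun μ => |D μ j|)
      simpa using this
    have h4 : |w j| ^ 2 = w j ^ 2 := sq_abs _
    have h5 : (0 : ℝ) ≤ d * w j ^ 2 := by positivity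
    nlinarith [sq_nonneg (|w j| - ∑ μ : Fin (d + 1), |D μ j|)]
  have h5 : ∑ j : Fin N, (|w j| + ∑ μ : Fin (d + 1), |D μ j|) ^ 2 ≤
      ∑ j : Fin N, 2 * (d + 1) * (w j ^ 2 + ∑ μ : Fin (d + 1), D μ j ^ 2) :=
    Finset.sum_le_sum fun j _ => h2 j
  rw [← Finset.mul_sum] at h5
  unfold en kap
  have hN : (0 : ℝ) ≤ N := Nat.cast_nonneg N
  have h6 := mul_le_mul_of_nonneg_left h5 hN
  linarith

theorem bulk_le (w B : Fin N → ℝ) (D : Fin (d + 1) → Fin N → ℝ) (C : ℝ)
    (hB : ∀ k, |B k| ≤ C * ∑ j : Fin N, (|w j| + ∑ μ : Fin (d + 1), |D μ j|)) :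
    ∑ j : Fin N, (w j * D 0 j - D 0 j * B j) ≤ (1 + kap d N * |C|) * en w D := by
  set S := ∑ j : Fin N, (|w j| + ∑ μ : Fin (d + 1), |D μ j|) with hS
  have hS0 : 0 ≤ S := by rw [hS]; positivity
  have hSq : S ^ 2 ≤ kap d N * en w D := sum_sq_le w D
  have h1 : ∑ j : Fin N, w j * D 0 j ≤ en w D := by
    unfold en
    rw [Finset.mul_sum]
    refine Finset.sum_le_sum fun j _ => ?_
    have : D 0 j ^ 2 ≤ ∑ μ : Fin (d + 1), D μ j ^ 2 :=
      Finset.single_le_sum (f := fun μ => D μ j ^ 2) (fun μ _ => sq_nonneg _) (Finset.mem_univ 0)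
    nlinarith [sq_nonneg (w j - D 0 j)]
  have h2 : ∑ j : Fin N, -(D 0 j * B j) ≤ ∑ j : Fin N, |D 0 j| * (|C| * S) := by
    refine Finset.sum_le_sum fun j _ => ?_
    have h3 : -(D 0 j * B j) ≤ |D 0 j * B j| := neg_le_abs _
    rw [abs_mul] at h3
    refine h3.trans (mul_le_mul_of_nonneg_left ?_ (abs_nonneg _))
    exact (hB j).trans (mul_le_mul_of_nonneg_right (le_abs_self C) hS0)
  have h4 : ∑ j : Fin N, |D 0 j| ≤ S := by
    rw [hS]
    refine Finset.sum_le_sum fun j _ => ?_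
    have : |D 0 j| ≤ ∑ μ : Fin (d + 1), |D μ j| :=
      Finset.single_le_sum (f := fun μ => |D μ j|) (fun μ _ => abs_nonneg _) (Finset.mem_univ 0)
    have := abs_nonneg (w j)
    linarith
  rw [← Finset.sum_mul] at h2
  have h5 : (∑ j : Fin N, |D 0 j|) * (|C| * S) ≤ |C| * S ^ 2 := by
    have := mul_le_mul_of_nonneg_right h4 (mul_nonneg (abs_nonneg C) hS0)
    nlinarith
  have h6 : |C| * S ^ 2 ≤ |C| * (kap d N * en w D) := mul_le_mul_of_nonneg_left hSq (abs_nonneg C)
  have h7 : ∑ j : Fin N, (w j * D 0 j - D 0 j * B j) =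
      ∑ j : Fin N, w j * D 0 j + ∑ j : Fin N, -(D 0 j * B j) := by
    rw [← Finset.sum_add_distrib]; rfl
  rw [h7]
  linarith

theorem flux_le (w : Fin N → ℝ) (D : Fin (d + 1) → Fin N → ℝ) (r : ℝ) (x : Fin d → ℝ) (hr : 0 < r)
    (h : ∑ i, x i ^ 2 ≤ r ^ 2) :
    ∑ i : Fin d, x i * (∑ j : Fin N, D 0 j * D i.succ j) ≤ r * en w D := by
  have key : ∀ j : Fin N, D 0 j * (∑ i : Fin d, x i * D i.succ j) ≤
      r * ((1 / 2) * (w j ^ 2 + ∑ μ : Fin (d + 1), D μ j ^ 2)) := by
    intro j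
    rw [Fin.sum_univ_succ]
    have h1 : (∑ i : Fin d, x i * D i.succ j) ^ 2 ≤ (∑ i, x i ^ 2) * (∑ i : Fin d, D i.succ j ^ 2) :=
      Finset.sum_mul_sq_le_sq_mul_sq _ _ _
    set b := ∑ i : Fin d, x i * D i.succ j
    set S := ∑ i : Fin d, D i.succ j ^ 2 with hS
    have hS0 : 0 ≤ S := by rw [hS]; positivity
    set a := D 0 j
    have h2 : b ^ 2 ≤ r ^ 2 * S := h1.trans (mul_le_mul_of_nonneg_right h hS0)
    have h3 : r * (a * b) ≤ r * (r * ((1 / 2) * (a ^ 2 + S))) := by
      nlinarith [sq_nonneg (r * a - b)]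
    have h4 := le_of_mul_le_mul_left h3 hr
    have h5 : 0 ≤ r * ((1 / 2) * w j ^ 2) := by positivity
    nlinarith
  have h6 := Finset.sum_le_sum fun j (_ : j ∈ (Finset.univ : Finset (Fin N))) => key j
  unfold en
  rw [← Finset.mul_sum, ← Finset.mul_sum] at h6
  refine le_trans (le_of_eq ?_) h6
  simp only [Finset.mul_sum]
  rw [Finset.sum_comm]
  exact Finset.sum_congr rfl fun j _ => Finset.sum_congr rfl fun i _ => by ring

/-! ### calculus -/

/-- light cone function -/
noncomputable def cone (R : ℝ) (X : Fin (d + 1) → ℝ) : ℝ :=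
  (R - X 0) ^ 2 - nsq X

/-- the weight -/
noncomputable def q (R K : ℝ) (X : Fin (d + 1) → ℝ) : ℝ :=
  Real.exp (-(K * X 0)) * pq (cone R X)

theorem hasFDerivAt_coord (μ : Fin (d + 1)) (X : Fin (d + 1) → ℝ) :
    HasFDerivAt (fun Y : Fin (d + 1) → ℝ => Y μ)
      (ContinuousLinearMap.proj (R := ℝ) (φ := fun _ : Fin (d + 1) => ℝ) μ) X :=
  (ContinuousLinearMap.proj (R := ℝ) (φ := fun _ : Fin (d + 1) => ℝ) μ).hasFDerivAt

theorem contDiff_cone (R : ℝ) : ContDiff ℝ 1 (cone (d := d) R) := by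
  unfold cone nsq; fun_prop

theorem contDiff_q (R K : ℝ) : ContDiff ℝ 1 (q (d := d) R K) := by
  have h1 : ContDiff ℝ 1 fun X : Fin (d + 1) → ℝ => Real.exp (-(K * X 0)) := by fun_prop
  exact h1.mul (contDiff_pq.comp (contDiff_cone R))

theorem fderiv_cone (R : ℝ) (X v : Fin (d + 1) → ℝ) :
    fderiv ℝ (cone R) X v = -2 * (R - X 0) * v 0 - 2 * ∑ i : Fin d, X i.succ * v i.succ := by
  have a0 := ((hasFDerivAt_coord 0 X).const_sub R).pow 2
  have a1 := HasFDerivAt.fun_sum fun i (_ : i ∈ (Finset.univ : Finset (Fin d))) =>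
    (hasFDerivAt_coord i.succ X).pow 2
  have h : HasFDerivAt (cone R) _ X := a0.sub a1
  rw [h.fderiv]
  have e : ∀ i : Fin d, 2 * X i.succ * v i.succ = 2 * (X i.succ * v i.succ) := fun i => by ring
  simp [Finset.mul_sum, e]

theorem fderiv_q (R K : ℝ) (X v : Fin (d + 1) → ℝ) :
    fderiv ℝ (q R K) X v = -(K * v 0) * q R K X +
      Real.exp (-(K * X 0)) * (2 * max (cone R X) 0) *
        (-2 * (R - X 0) * v 0 - 2 * ∑ i : Fin d, X i.succ * v i.succ) := by
  have hc : HasFDerivAt (cone R) (fderiv ℝ (cone R) X) X :=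
    ((contDiff_cone R).differentiable one_ne_zero).differentiableAt.hasFDerivAt
  have h1 := (hasDerivAt_pq (cone R X)).comp_hasFDerivAt X hc
  have h0 : HasFDerivAt (fun Y : Fin (d + 1) → ℝ => Real.exp (-(K * Y 0)))
      (Real.exp (-(K * X 0)) •
        (-(K • (ContinuousLinearMap.proj (R := ℝ) (φ := fun _ : Fin (d + 1) => ℝ) 0)))) X :=
    (((hasFDerivAt_coord 0 X).const_mul K).neg).exp
  have h2 := h0.mul h1
  have h3 : HasFDerivAt (q R K) _ X := h2
  rw [h3.fderiv]
  simp [fderiv_cone, q]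
  ring

/-! ### the energy identity -/

section Id
variable {w : (Fin (d + 1) → ℝ) → (Fin N → ℝ)} (hw : ContDiff ℝ (⊤ : ℕ∞) w)
include hw

theorem contDiff_comp (j : Fin N) : ContDiff ℝ (⊤ : ℕ∞) fun X => w X j :=
  contDiff_pi.1 hw j

theorem contDiff_fderiv_w : ContDiff ℝ (⊤ : ℕ∞) (fderiv ℝ w) :=
  hw.fderiv_right (m := (⊤ : ℕ∞)) (by simp)

theorem contDiff_pd (μ : Fin (d + 1)) (j : Fin N) : ContDiff ℝ (⊤ : ℕ∞) (pd w μ j) := by
  have h1 : ContDiff ℝ (⊤ : ℕ∞) fun X => fderiv ℝ w X (Pi.single μ 1) :=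
    (contDiff_fderiv_w hw).clm_apply contDiff_const
  exact contDiff_pi.1 h1 j

theorem fderiv_comp (j : Fin N) (X v : Fin (d + 1) → ℝ) :
    fderiv ℝ (fun Y => w Y j) X v = fderiv ℝ w X v j := by
  have h : HasFDerivAt w (fderiv ℝ w X) X :=
    (hw.differentiable (by simp)).differentiableAt.hasFDerivAt
  have h2 := (hasFDerivAt_pi'.1 h) j
  rw [h2.fderiv]; rfl

theorem pd_symm (μ ν : Fin (d + 1)) (j : Fin N) (X : Fin (d + 1) → ℝ) :
    fderiv ℝ (pd w μ j) X (Pi.single ν 1) = fderiv ℝ (pd w ν j) X (Pi.single μ 1) := by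
  have key : ∀ (μ ν : Fin (d + 1)), fderiv ℝ (pd w μ j) X (Pi.single ν 1) =
      (fderiv ℝ (fderiv ℝ w) X (Pi.single ν 1)) (Pi.single μ 1) j := by
    intro μ ν
    have h : HasFDerivAt (fderiv ℝ w) (fderiv ℝ (fderiv ℝ w) X) X :=
      ((contDiff_fderiv_w hw).differentiable (by simp)).differentiableAt.hasFDerivAt
    have h1 : HasFDerivAt (fun Y => fderiv ℝ w Y (Pi.single μ 1)) _ X :=
      h.clm_apply (hasFDerivAt_const (𝕜 := ℝ) (Pi.single μ (1 : ℝ) : Fin (d + 1) → ℝ) X)
    have h2 := (hasFDerivAt_pi'.1 h1) j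
    have h3 : HasFDerivAt (pd w μ j) _ X := h2
    rw [h3.fderiv]
    simp
  rw [key, key]
  have hs : IsSymmSndFDerivAt ℝ w X := by
    refine ContDiffAt.isSymmSndFDerivAt (n := (⊤ : ℕ∞)) hw.contDiffAt ?_
    rw [minSmoothness_of_isRCLikeNormedField]
    exact WithTop.coe_le_coe.2 (le_top : (2 : ℕ∞) ≤ ⊤)
  rw [hs.eq]

/-- energy density of `w` -/
noncomputable def ee (w : (Fin (d + 1) → ℝ) → (Fin N → ℝ)) (X : Fin (d + 1) → ℝ) : ℝ :=
  en (w X) (fun μ j => pd w μ j X)

/-- momentum density of `w` -/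
noncomputable def gg (w : (Fin (d + 1) → ℝ) → (Fin N → ℝ)) (i : Fin (d + 1))
    (X : Fin (d + 1) → ℝ) : ℝ :=
  ∑ j : Fin N, pd w 0 j X * pd w i j X

theorem contDiff_ee : ContDiff ℝ 1 (ee w) := by
  have h1 : ∀ j, ContDiff ℝ 1 fun X => w X j := fun j =>
    (contDiff_comp hw j).of_le (by exact_mod_cast le_top)
  have h2 : ∀ μ j, ContDiff ℝ 1 (pd w μ j) := fun μ j =>
    (contDiff_pd hw μ j).of_le (by exact_mod_cast le_top)
  unfold ee en
  refine contDiff_const.mul (ContDiff.sum fun j _ => ?_)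
  exact ((h1 j).pow 2).add (ContDiff.sum fun μ _ => (h2 μ j).pow 2)

theorem contDiff_gg (i : Fin (d + 1)) : ContDiff ℝ 1 (gg w i) := by
  have h2 : ∀ μ j, ContDiff ℝ 1 (pd w μ j) := fun μ j =>
    (contDiff_pd hw μ j).of_le (by exact_mod_cast le_top)
  unfold gg
  exact ContDiff.sum fun j _ => (h2 0 j).mul (h2 i j)

theorem fderiv_ee (X v : Fin (d + 1) → ℝ) :
    fderiv ℝ (ee w) X v = ∑ j : Fin N, (w X j * fderiv ℝ w X v j
      + ∑ μ : Fin (d + 1), pd w μ j X * fderiv ℝ (pd w μ j) X v) := by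
  have h1 : ∀ j, HasFDerivAt (fun X => w X j) (fderiv ℝ (fun X => w X j) X) X := fun j =>
    ((contDiff_comp hw j).differentiable (by simp)).differentiableAt.hasFDerivAt
  have h2 : ∀ μ j, HasFDerivAt (pd w μ j) (fderiv ℝ (pd w μ j) X) X := fun μ j =>
    ((contDiff_pd hw μ j).differentiable (by simp)).differentiableAt.hasFDerivAt
  have h3 := (HasFDerivAt.fun_sum fun j (_ : j ∈ (Finset.univ : Finset (Fin N))) =>
    ((h1 j).pow 2).add (HasFDerivAt.fun_sum fun μ (_ : μ ∈ (Finset.univ : Finset (Fin (d + 1)))) =>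
      (h2 μ j).pow 2)).const_mul (1 / 2 : ℝ)
  have h4 : HasFDerivAt (ee w) _ X := h3
  rw [h4.fderiv]
  simp [fderiv_comp hw]
  rw [Finset.mul_sum]
  refine Finset.sum_congr rfl fun j _ => ?_
  rw [mul_add, Finset.mul_sum]
  refine congrArg₂ _ (by ring) (Finset.sum_congr rfl fun μ _ => by ring)

theorem fderiv_gg (i : Fin (d + 1)) (X v : Fin (d + 1) → ℝ) :
    fderiv ℝ (gg w i) X v = ∑ j : Fin N, (pd w 0 j X * fderiv ℝ (pd w i j) X v
      + fderiv ℝ (pd w 0 j) X v * pd w i j X) := by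
  have h2 : ∀ μ j, HasFDerivAt (pd w μ j) (fderiv ℝ (pd w μ j) X) X := fun μ j =>
    ((contDiff_pd hw μ j).differentiable (by simp)).differentiableAt.hasFDerivAt
  have h3 := HasFDerivAt.fun_sum fun j (_ : j ∈ (Finset.univ : Finset (Fin N))) =>
    (h2 0 j).mul (h2 i j)
  have h4 : HasFDerivAt (gg w i) _ X := h3
  rw [h4.fderiv]
  simp
  exact Finset.sum_congr rfl fun j _ => by ring

/-- the flux -/
noncomputable def flux (w : (Fin (d + 1) → ℝ) → (Fin N → ℝ)) (R K : ℝ) (i : Fin (d + 1))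
    (X : Fin (d + 1) → ℝ) : ℝ :=
  q R K X * (if i = 0 then ee w X else - gg w i X)

theorem contDiff_flux (R K : ℝ) (i : Fin (d + 1)) : ContDiff ℝ 1 (flux w R K i) := by
  unfold flux
  refine (contDiff_q R K).mul ?_
  split_ifs
  · exact contDiff_ee hw
  · exact (contDiff_gg hw i).neg

theorem divergence (R K : ℝ) (X : Fin (d + 1) → ℝ) :
    ∑ i : Fin (d + 1), fderiv ℝ (flux w R K i) X (Pi.single i 1) =
      q R K X * (∑ j : Fin N, (w X j * pd w 0 j X - pd w 0 j X * box w j X) - K * ee w X)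
      + Real.exp (-(K * X 0)) * (2 * max (cone R X) 0) * (-2 * (R - X 0) * ee w X
        + 2 * ∑ i : Fin d, X i.succ * gg w i.succ X) := by
  have hq : HasFDerivAt (q R K) (fderiv ℝ (q R K) X) X :=
    ((contDiff_q R K).differentiable one_ne_zero).differentiableAt.hasFDerivAt
  have he : HasFDerivAt (ee w) (fderiv ℝ (ee w) X) X :=
    ((contDiff_ee hw).differentiable one_ne_zero).differentiableAt.hasFDerivAt
  have hg : ∀ i, HasFDerivAt (gg w i) (fderiv ℝ (gg w i) X) X := fun i =>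
    ((contDiff_gg hw i).differentiable one_ne_zero).differentiableAt.hasFDerivAt
  have f0 : fderiv ℝ (flux w R K 0) X (Pi.single 0 1) =
      q R K X * fderiv ℝ (ee w) X (Pi.single 0 1) + fderiv ℝ (q R K) X (Pi.single 0 1) * ee w X := by
    have h : HasFDerivAt (flux w R K 0) _ X := hq.mul he
    rw [h.fderiv]
    simp
    ring
  have fi : ∀ i : Fin d, fderiv ℝ (flux w R K i.succ) X (Pi.single i.succ 1) =
      -(q R K X * fderiv ℝ (gg w i.succ) X (Pi.single i.succ 1)
        + fderiv ℝ (q R K) X (Pi.single i.succ 1) * gg w i.succ X) := by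
    intro i
    have h0 : flux w R K i.succ = fun Y => q R K Y * - gg w i.succ Y := by
      funext Y; simp only [flux, if_neg (Fin.succ_ne_zero i)]
    have h : HasFDerivAt (fun Y => q R K Y * - gg w i.succ Y) _ X := hq.mul (hg i.succ).neg
    rw [h0, h.fderiv]
    simp
    ring
  have hq0 : fderiv ℝ (q R K) X (Pi.single 0 1) = -K * q R K X +
      Real.exp (-(K * X 0)) * (2 * max (cone R X) 0) * (-2 * (R - X 0)) := by
    rw [fderiv_q]
    have : ∀ i : Fin d, X i.succ * (Pi.single 0 1 : Fin (d + 1) → ℝ) i.succ = 0 := by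
      intro i
      rw [Pi.single_eq_of_ne (Fin.succ_ne_zero i), mul_zero]
    rw [Finset.sum_eq_zero fun i _ => this i, Pi.single_eq_same]
    ring
  have hqi : ∀ i : Fin d, fderiv ℝ (q R K) X (Pi.single i.succ 1) =
      Real.exp (-(K * X 0)) * (2 * max (cone R X) 0) * (-2 * X i.succ) := by
    intro i
    rw [fderiv_q]
    have h1 : ∑ l : Fin d, X l.succ * (Pi.single i.succ 1 : Fin (d + 1) → ℝ) l.succ = X i.succ := by
      rw [Finset.sum_eq_single i]
      · rw [Pi.single_eq_same, mul_one]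
      · intro l _ hl
        rw [Pi.single_eq_of_ne (fun h => hl (Fin.succ_injective _ h)), mul_zero]
      · intro h; exact absurd (Finset.mem_univ _) h
    rw [h1, Pi.single_eq_of_ne (Fin.succ_ne_zero i).symm]
    ring
  have hee : fderiv ℝ (ee w) X (Pi.single 0 1) = ∑ j : Fin N, (w X j * pd w 0 j X
      + (pd w 0 j X * fderiv ℝ (pd w 0 j) X (Pi.single 0 1) +
        ∑ i : Fin d, pd w i.succ j X * fderiv ℝ (pd w i.succ j) X (Pi.single 0 1))) := by
    rw [fderiv_ee hw]
    refine Finset.sum_congr rfl fun j _ => ?_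
    rw [Fin.sum_univ_succ]
    rfl
  have hbox : ∀ j : Fin N, box w j X = - fderiv ℝ (pd w 0 j) X (Pi.single 0 1)
      + ∑ i : Fin d, fderiv ℝ (pd w i.succ j) X (Pi.single i.succ 1) := by
    intro j
    unfold box
    rw [Fin.sum_univ_succ, if_pos rfl, neg_one_mul]
    congr 1
    refine Finset.sum_congr rfl fun i _ => ?_
    rw [if_neg (Fin.succ_ne_zero i), one_mul]
    rfl
  have hgg : ∀ i : Fin d, fderiv ℝ (gg w i.succ) X (Pi.single i.succ 1) =
      ∑ j : Fin N, (pd w 0 j X * fderiv ℝ (pd w i.succ j) X (Pi.single i.succ 1)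
      + pd w i.succ j X * fderiv ℝ (pd w i.succ j) X (Pi.single 0 1)) := by
    intro i
    rw [fderiv_gg hw]
    refine Finset.sum_congr rfl fun j _ => ?_
    rw [pd_symm hw 0 i.succ j X]
    ring
  rw [Fin.sum_univ_succ, f0, Finset.sum_congr rfl fun i _ => fi i, hq0]
  have hcore : fderiv ℝ (ee w) X (Pi.single 0 1) -
      ∑ i : Fin d, fderiv ℝ (gg w i.succ) X (Pi.single i.succ 1) =
      ∑ j : Fin N, (w X j * pd w 0 j X - pd w 0 j X * box w j X) := by
    rw [hee, Finset.sum_congr rfl fun i _ => hgg i, Finset.sum_comm, ← Finset.sum_sub_distrib]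
    refine Finset.sum_congr rfl fun j _ => ?_
    rw [hbox, Finset.sum_add_distrib, ← Finset.mul_sum]
    ring
  have hsum : ∑ i : Fin d, -(q R K X * fderiv ℝ (gg w i.succ) X (Pi.single i.succ 1)
        + fderiv ℝ (q R K) X (Pi.single i.succ 1) * gg w i.succ X) =
      -(q R K X * ∑ i : Fin d, fderiv ℝ (gg w i.succ) X (Pi.single i.succ 1)) +
      Real.exp (-(K * X 0)) * (2 * max (cone R X) 0) * (2 * ∑ i : Fin d, X i.succ * gg w i.succ X) := by
    rw [Finset.sum_congr rfl fun i _ => by rw [hqi i], Finset.sum_neg_distrib,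
      Finset.sum_add_distrib, Finset.mul_sum, Finset.mul_sum, Finset.mul_sum, neg_add]
    congr 1
    rw [← Finset.sum_neg_distrib]
    exact Finset.sum_congr rfl fun i _ => by ring
  rw [hsum, ← hcore]
  ring

end Id

theorem q_zero {R K : ℝ} {X : Fin (d + 1) → ℝ} (h : cone R X ≤ 0) : q R K X = 0 := by
  simp [q, pq_zero h]

theorem q_nonneg (R K : ℝ) (X : Fin (d + 1) → ℝ) : 0 ≤ q R K X :=
  mul_nonneg (Real.exp_pos _).le (pq_nonneg _)

theorem q_pos {R K : ℝ} {X : Fin (d + 1) → ℝ} (h : 0 < cone R X) : 0 < q R K X :=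
  mul_pos (Real.exp_pos _) (pq_pos h)

theorem ee_nonneg (w : (Fin (d + 1) → ℝ) → (Fin N → ℝ)) (X : Fin (d + 1) → ℝ) : 0 ≤ ee w X :=
  en_nonneg _ _

theorem energy_uniqueness (w : (Fin (d + 1) → ℝ) → (Fin N → ℝ)) (hw : ContDiff ℝ (⊤ : ℕ∞) w)
    (R T C : ℝ) (hT : 0 < T) (hTR : T < R)
    (hineq : ∀ X : Fin (d + 1) → ℝ, 0 ≤ X 0 → X 0 ≤ T → nsq X ≤ (R - X 0) ^ 2 → ∀ k,
      |box w k X| ≤ C * ∑ j : Fin N, (|w X j| + ∑ μ : Fin (d + 1), |pd w μ j X|))
    (hinit : ∀ X : Fin (d + 1) → ℝ, X 0 = 0 → nsq X ≤ R ^ 2 → ∀ j, w X j = 0 ∧ pd w 0 j X = 0)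
    (X₀ : Fin (d + 1) → ℝ) (hX0 : 0 ≤ X₀ 0) (hX0T : X₀ 0 ≤ T) (hXc : nsq X₀ < (R - X₀ 0) ^ 2) :
    w X₀ = 0 := by
  set T' := X₀ 0 with hT'
  have hT'R : T' < R := lt_of_le_of_lt hX0T hTR
  have hR : 0 < R := hT.trans hTR
  set K : ℝ := 1 + kap d N * |C| with hK
  set a : Fin (d + 1) → ℝ := Fin.cons 0 (fun _ => -R) with ha
  set b : Fin (d + 1) → ℝ := Fin.cons T' (fun _ => R) with hb
  have ha0 : a 0 = 0 := rfl
  have hb0 : b 0 = T' := rfl
  have has : ∀ i : Fin d, a i.succ = -R := fun i => rfl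
  have hbs : ∀ i : Fin d, b i.succ = R := fun i => rfl
  have hab : a ≤ b := by
    intro i
    refine Fin.cases ?_ (fun i => ?_) i
    · rw [ha0, hb0]; exact hX0
    · rw [has, hbs]; linarith
  -- divergence theorem
  have hdiv := integral_divergence_of_hasFDerivAt_off_countable' a b hab (flux w R K)
    (fun i X => fderiv ℝ (flux w R K i) X) ∅ Set.countable_empty
    (fun i => (contDiff_flux hw R K i).continuous.continuousOn)
    (fun X _ i => ((contDiff_flux hw R K i).differentiable one_ne_zero).differentiableAt.hasFDerivAt)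
    (by
      refine ContinuousOn.integrableOn_compact isCompact_Icc (Continuous.continuousOn ?_)
      refine continuous_finsetSum _ fun i _ => ?_
      exact ((contDiff_flux hw R K i).continuous_fderiv one_ne_zero).clm_apply continuous_const)
  -- the divergence is nonpositive
  have hle : (∫ x in Icc a b, ∑ i, fderiv ℝ (flux w R K i) x (Pi.single i 1)) ≤ 0 := by
    refine setIntegral_nonpos measurableSet_Icc fun X hX => ?_
    rw [divergence hw]
    have hX00 : 0 ≤ X 0 := hX.1 0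
    have hX0T' : X 0 ≤ T' := hX.2 0
    rcases le_or_gt (cone R X) 0 with hc | hc
    · rw [q_zero hc, max_eq_right hc]; simp
    · have hr : 0 < R - X 0 := by linarith
      have hcone : nsq X ≤ (R - X 0) ^ 2 := by
        unfold cone at hc; linarith
      have h1 := bulk_le (w X) (fun k => box w k X) (fun μ j => pd w μ j X) C
        (fun k => hineq X hX00 (hX0T'.trans hX0T) hcone k)
      have h2 := flux_le (w X) (fun μ j => pd w μ j X) (R - X 0) (fun i => X i.succ) hr hcone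
      have h3 : q R K X * (∑ j : Fin N, (w X j * pd w 0 j X - pd w 0 j X * box w j X)
          - K * ee w X) ≤ 0 := by
        refine mul_nonpos_of_nonneg_of_nonpos (q_nonneg R K X) ?_
        have : ee w X = en (w X) (fun μ j => pd w μ j X) := rfl
        rw [this]
        linarith
      have h4 : Real.exp (-(K * X 0)) * (2 * max (cone R X) 0) * (-2 * (R - X 0) * ee w X
        + 2 * ∑ i : Fin d, X i.succ * gg w i.succ X) ≤ 0 := by
        refine mul_nonpos_of_nonneg_of_nonpos (by positivity) ?_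
        have e1 : ee w X = en (w X) (fun μ j => pd w μ j X) := rfl
        rw [e1]
        unfold gg
        linarith
      linarith
  rw [hdiv, Fin.sum_univ_succ] at hle
  -- lateral faces
  have hlat : ∀ i : Fin d, ((∫ x in Icc (a ∘ (Fin.succ i).succAbove) (b ∘ (Fin.succ i).succAbove),
      flux w R K (Fin.succ i) (Fin.insertNth (Fin.succ i) (b (Fin.succ i)) x)) -
      ∫ x in Icc (a ∘ (Fin.succ i).succAbove) (b ∘ (Fin.succ i).succAbove),
      flux w R K (Fin.succ i) (Fin.insertNth (Fin.succ i) (a (Fin.succ i)) x)) = 0 := by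
    intro i
    have hdpos : 0 < d := Nat.lt_of_le_of_lt (Nat.zero_le _) i.2
    have : NeZero d := ⟨hdpos.ne'⟩
    have hz : ∀ c : ℝ, c ^ 2 = R ^ 2 →
        ∀ x ∈ Icc (a ∘ (Fin.succ i).succAbove) (b ∘ (Fin.succ i).succAbove),
        flux w R K (Fin.succ i) (Fin.insertNth (Fin.succ i) c x) = 0 := by
      intro c hc x hx
      set Y : Fin (d + 1) → ℝ := Fin.insertNth (Fin.succ i) c x with hY
      have hYi : Y (Fin.succ i) = c := by simp [hY]
      have hsA : (Fin.succ i).succAbove (0 : Fin d) = 0 := by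
        rw [Fin.succAbove_of_castSucc_lt]
        · rfl
        · exact Fin.succ_pos i
      have hY0 : Y 0 = x 0 := by
        have : Y ((Fin.succ i).succAbove 0) = x 0 := by
          rw [hY]; simp only [Fin.insertNth_apply_succAbove]
        rwa [hsA] at this
      have h0 : 0 ≤ Y 0 := by
        rw [hY0]
        have := hx.1 0
        rw [Function.comp_apply, hsA, ha0] at this
        exact this
      have h1 : Y 0 ≤ T' := by
        rw [hY0]
        have := hx.2 0
        rw [Function.comp_apply, hsA, hb0] at this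
        exact this
      have hcz : cone R Y ≤ 0 := by
        have h2 : (R - Y 0) ^ 2 ≤ R ^ 2 := by nlinarith
        have h3 : R ^ 2 ≤ nsq Y := by
          rw [← hc, ← hYi]
          unfold nsq
          exact Finset.single_le_sum (f := fun i : Fin d => Y i.succ ^ 2) (fun i _ => sq_nonneg _)
            (Finset.mem_univ i)
        unfold cone
        linarith
      simp [flux, q_zero hcz]
    have hbi : (b (Fin.succ i)) ^ 2 = R ^ 2 := by rw [hbs]
    have hai : (a (Fin.succ i)) ^ 2 = R ^ 2 := by rw [has]; ring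
    rw [setIntegral_congr_fun measurableSet_Icc (hz _ hbi),
      setIntegral_congr_fun measurableSet_Icc (hz _ hai)]
    simp
  rw [Finset.sum_eq_zero fun i _ => hlat i, add_zero] at hle
  -- the initial face
  have hback : ∀ x ∈ Icc (a ∘ (0 : Fin (d + 1)).succAbove) (b ∘ (0 : Fin (d + 1)).succAbove),
      flux w R K 0 (Fin.insertNth 0 (a 0) x) = 0 := by
    intro x _
    set Y : Fin (d + 1) → ℝ := Fin.insertNth 0 (a 0) x with hY
    have hY0 : Y 0 = 0 := by simp [hY, ha]
    rcases le_or_gt (cone R Y) 0 with hc | hc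
    · simp [flux, q_zero hc]
    · have hYc : nsq Y < R ^ 2 := by
        unfold cone at hc; rw [hY0] at hc; linarith
      have hwY := hinit Y hY0 hYc.le
      have hsp : ∀ i : Fin (d + 1), i ≠ 0 → ∀ j, pd w i j Y = 0 := by
        intro i hi j
        have h1 : HasFDerivAt w (fderiv ℝ w Y) Y :=
          (hw.differentiable (by simp)).differentiableAt.hasFDerivAt
        have h2 := ((hasFDerivAt_pi'.1 h1) j).hasLineDerivAt (Pi.single i (1 : ℝ))
        have h3 : HasDerivAt (fun t : ℝ => w (Y + t • Pi.single i (1 : ℝ)) j)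
          (pd w i j Y) 0 := h2
        have h4 : (fun t : ℝ => w (Y + t • Pi.single i (1 : ℝ)) j) =ᶠ[nhds 0] fun _ => 0 := by
          have hcont : Continuous fun t : ℝ => cone R (Y + t • Pi.single i (1 : ℝ)) :=
            (contDiff_cone R).continuous.comp (by fun_prop)
          have h5 : ∀ᶠ t in nhds (0 : ℝ), 0 < cone R (Y + t • Pi.single i (1 : ℝ)) := by
            apply hcont.continuousAt.eventually
            apply Ioi_mem_nhds
            simpa using hc
          filter_upwards [h5] with t ht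
          have h6 : (Y + t • (Pi.single i (1 : ℝ) : Fin (d + 1) → ℝ)) 0 = 0 := by
            simp [hY0, Pi.single_eq_of_ne (Ne.symm hi)]
          refine (hinit _ h6 ?_ j).1
          unfold cone at ht
          rw [h6] at ht
          linarith
        exact h3.unique (((hasDerivAt_const (0 : ℝ) (0 : ℝ))).congr_of_eventuallyEq h4)
      have hall : ∀ i j, pd w i j Y = 0 := by
        intro i j
        by_cases hi : i = 0
        · subst hi; exact (hwY j).2
        · exact hsp i hi j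
      have hee : ee w Y = 0 := by
        unfold ee en
        simp [hall, fun j => (hwY j).1]
      simp [flux, hee]
  rw [setIntegral_congr_fun measurableSet_Icc hback] at hle
  simp only [integral_zero, sub_zero] at hle
  -- the final face
  have hins : Continuous fun x : Fin d → ℝ => (Fin.insertNth 0 (b 0) x : Fin (d + 1) → ℝ) := by
    refine continuous_pi fun i => ?_
    refine Fin.cases ?_ (fun i => ?_) i
    · simpa using continuous_const
    · simpa using continuous_apply i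
  have hcf : Continuous fun x : Fin d → ℝ => flux w R K 0 (Fin.insertNth 0 (b 0) x) :=
    (contDiff_flux hw R K 0).continuous.comp hins
  have hnn : ∀ x : Fin d → ℝ, 0 ≤ flux w R K 0 (Fin.insertNth 0 (b 0) x) := by
    intro x
    simp only [flux, if_true]
    exact mul_nonneg (q_nonneg _ _ _) (ee_nonneg _ _)
  have hzero : (∫ x in Icc (a ∘ (0 : Fin (d + 1)).succAbove) (b ∘ (0 : Fin (d + 1)).succAbove),
      flux w R K 0 (Fin.insertNth 0 (b 0) x)) = 0 :=
    le_antisymm hle (setIntegral_nonneg measurableSet_Icc fun x _ => hnn x)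
  have hint : IntegrableOn (fun x : Fin d → ℝ => flux w R K 0 (Fin.insertNth 0 (b 0) x))
      (Icc (a ∘ (0 : Fin (d + 1)).succAbove) (b ∘ (0 : Fin (d + 1)).succAbove)) :=
    hcf.continuousOn.integrableOn_compact isCompact_Icc
  have hae := (setIntegral_eq_zero_iff_of_nonneg_ae (Filter.Eventually.of_forall hnn) hint).1 hzero
  set U : Set (Fin d → ℝ) := Set.pi Set.univ fun _ => Ioo (-R) R with hU
  have hUo : IsOpen U := isOpen_set_pi Set.finite_univ fun _ _ => isOpen_Ioo
  have hUs : U ⊆ Icc (a ∘ (0 : Fin (d + 1)).succAbove) (b ∘ (0 : Fin (d + 1)).succAbove) := by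
    intro x hx
    constructor
    · intro i
      have := (hx i trivial).1
      rw [Function.comp_apply, Fin.succAbove_zero, has]
      exact this.le
    · intro i
      have := (hx i trivial).2
      rw [Function.comp_apply, Fin.succAbove_zero, hbs]
      exact this.le
  have hae2 := ae_restrict_of_ae_restrict_of_subset hUs hae
  have heq : Set.EqOn (fun x : Fin d → ℝ => flux w R K 0 (Fin.insertNth 0 (b 0) x))
      (fun _ => 0) U :=
    Measure.eqOn_open_of_ae_eq hae2 hUo hcf.continuousOn continuousOn_const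
  set x₀ : Fin d → ℝ := fun i => X₀ i.succ with hx₀
  have hX₀ : (Fin.insertNth 0 (b 0) x₀ : Fin (d + 1) → ℝ) = X₀ := by
    funext i
    refine Fin.cases ?_ (fun i => ?_) i
    · simp [hb, hT']
    · simp [hx₀]
  have hx₀U : x₀ ∈ U := by
    have hlt : nsq X₀ < R ^ 2 := by
      have : (R - T') ^ 2 ≤ R ^ 2 := by nlinarith
      linarith
    intro i _
    have hi : (x₀ i) ^ 2 < R ^ 2 := by
      refine lt_of_le_of_lt ?_ hlt
      unfold nsq
      exact Finset.single_le_sum (f := fun i : Fin d => X₀ i.succ ^ 2) (fun i _ => sq_nonneg _)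
        (Finset.mem_univ i)
    exact abs_lt.1 (abs_lt_of_sq_lt_sq hi hR.le)
  have hfin := heq hx₀U
  simp only [hX₀, flux, if_true] at hfin
  have hcpos : 0 < cone R X₀ := by unfold cone; linarith
  have hee : ee w X₀ = 0 := by
    rcases mul_eq_zero.1 hfin with h | h
    · exact absurd h (q_pos hcpos).ne'
    · exact h
  funext j
  have h1 : w X₀ j ^ 2 ≤ 2 * ee w X₀ := by
    unfold ee en
    have h2 : w X₀ j ^ 2 ≤ w X₀ j ^ 2 + ∑ μ : Fin (d + 1), pd w μ j X₀ ^ 2 := by
      have : 0 ≤ ∑ μ : Fin (d + 1), pd w μ j X₀ ^ 2 := Finset.sum_nonneg fun _ _ => sq_nonneg _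
      linarith
    have h3 : w X₀ j ^ 2 + ∑ μ : Fin (d + 1), pd w μ j X₀ ^ 2 ≤
        ∑ j : Fin N, (w X₀ j ^ 2 + ∑ μ : Fin (d + 1), pd w μ j X₀ ^ 2) :=
      Finset.single_le_sum (f := fun j => w X₀ j ^ 2 + ∑ μ : Fin (d + 1), pd w μ j X₀ ^ 2)
        (fun j _ => by positivity) (Finset.mem_univ j)
    linarith
  rw [hee] at h1
  have h4 : w X₀ j ^ 2 = 0 := le_antisymm (by linarith) (sq_nonneg _)
  simpa using pow_eq_zero_iff (two_ne_zero) |>.1 h4

end Energy

end Pool.Agent.Y276.WM
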