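import Pool.Agent.Y276.WM.Dat

set_option autoImplicit false
set_option linter.unusedSectionVars false

namespace Pool.Agent.Y276.WM

open Set Filter Topology MeasureTheory

variable {d n : ℕ}

lemma ns_big {y : Fin d → ℝ} {i : Fin d} (h : 2 < |y i|) : 17 / 16 < ns y := by
  have h1 : y i ^ 2 ≤ ns y := by
    unfold ns
    exact Finset.single_le_sum (f := fun i : Fin d => y i ^ 2) (fun i _ => sq_nonneg _)
      (Finset.mem_univ i)
  have h2 : y i ^ 2 = |y i| ^ 2 := (sq_abs _).symm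
  nlinarith

section
variable {V : (Fin (d + 1) → ℝ) → (Fin (n + 1) → ℝ)} {h : 4 ≤ d + 1}
  (hV : ContDiffOn ℝ (⊤ : ℕ∞) V (OV h)) {v0 v1 : (Fin d → ℝ) → (Fin (n + 1) → ℝ)}
  (hv0 : ContDiff ℝ (⊤ : ℕ∞) v0) (hv1 : ContDiff ℝ (⊤ : ℕ∞) v1)
  (x0 : Fin d → ℝ)

lemma F0_zero {y : Fin d → ℝ} (hy : 17 / 16 ≤ ns y) : F0 V y = 0 := by
  unfold F0
  rw [c0_zero hy, zero_smul]

lemma F1_zero {y : Fin d → ℝ} (hy : 17 / 16 ≤ ns y) : F1 V y = 0 := by
  unfold F1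
  rw [c0_zero hy, zero_smul]

lemma U0_eq {l : ℝ} {x : Fin d → ℝ} (hx : 17 / 16 ≤ ns (zz l x0 x)) : U0 V v0 x0 l x = v0 x := by
  unfold U0
  rw [F0_zero hx, c0_zero hx]
  simp

lemma U1_eq {l : ℝ} {x : Fin d → ℝ} (hx : 17 / 16 ≤ ns (zz l x0 x)) : U1 V v1 x0 l x = v1 x := by
  unfold U1
  rw [F1_zero hx, c0_zero hx]
  simp

lemma zz_big {l : ℝ} (hl : 0 < l) {x : Fin d → ℝ}
    (hx : x ∉ Icc (fun i => x0 i - 2 * l) (fun i => x0 i + 2 * l)) :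
    ∃ i, 2 < |zz l x0 x i| := by
  by_contra hc
  push Not at hc
  apply hx
  have h1 : ∀ i, |x i - x0 i| ≤ 2 * l := by
    intro i
    have h2 := hc i
    have e : zz l x0 x i = l⁻¹ * (x i - x0 i) := rfl
    rw [e, abs_mul, abs_of_pos (inv_pos.2 hl)] at h2
    have h3 := mul_le_mul_of_nonneg_left h2 hl.le
    rw [← mul_assoc, mul_inv_cancel₀ hl.ne', one_mul] at h3
    linarith
  exact ⟨fun i => by have := (abs_le.1 (h1 i)).1; show x0 i - 2 * l ≤ x i; linarith,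
    fun i => by have := (abs_le.1 (h1 i)).2; show x i ≤ x0 i + 2 * l; linarith⟩

lemma zz_small {l : ℝ} (hl : 0 < l) {x : Fin d → ℝ}
    (hx : x ∈ Icc (fun i => x0 i - 2 * l) (fun i => x0 i + 2 * l)) :
    zz l x0 x ∈ Icc (fun _ : Fin d => (-2 : ℝ)) (fun _ => 2) := by
  have h1 : ∀ i, |zz l x0 x i| ≤ 2 := by
    intro i
    have e : zz l x0 x i = l⁻¹ * (x i - x0 i) := rfl
    rw [e, abs_mul, abs_of_pos (inv_pos.2 hl), inv_mul_le_iff₀ hl, abs_le]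
    have h2 : x0 i - 2 * l ≤ x i := hx.1 i
    have h3 : x i ≤ x0 i + 2 * l := hx.2 i
    constructor <;> linarith
  exact ⟨fun i => (abs_le.1 (h1 i)).1, fun i => (abs_le.1 (h1 i)).2⟩

/-! ### a uniform estimate for rescaled functions -/

/-- the linear part -/
noncomputable def LL (d : ℕ) (l : ℝ) : (Fin d → ℝ) →L[ℝ] ℝ × (Fin d → ℝ) :=
  ContinuousLinearMap.prod 0 (l⁻¹ • ContinuousLinearMap.id ℝ (Fin d → ℝ))

lemma norm_LL {l : ℝ} (hl : 0 < l) : ‖LL d l‖ ≤ l⁻¹ := by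
  apply ContinuousLinearMap.opNorm_le_bound _ (inv_nonneg.2 hl.le)
  intro x
  show ‖((0 : ℝ), l⁻¹ • x)‖ ≤ _
  rw [Prod.norm_mk, norm_zero, norm_smul, Real.norm_of_nonneg (inv_nonneg.2 hl.le)]
  exact max_le (by positivity) le_rfl

lemma aff_eq (l : ℝ) (x : Fin d → ℝ) : ((l, zz l x0 x) : ℝ × (Fin d → ℝ)) =
    LL d l x + (l, -(l⁻¹ • x0)) := by
  show _ = ((0 : ℝ), l⁻¹ • x) + (l, -(l⁻¹ • x0))
  rw [Prod.mk_add_mk, zero_add]
  unfold zz
  rw [smul_sub, sub_eq_add_neg]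

lemma iter_bound {F : Type} [NormedAddCommGroup F] [NormedSpace ℝ F] {G : ℝ × (Fin d → ℝ) → F}
    (hG : ContDiff ℝ (⊤ : ℕ∞) G) (m : ℕ) : ∃ C : ℝ, 0 ≤ C ∧ ∀ l : ℝ, 0 < l → l ≤ 1 →
    ∀ x ∈ Icc (fun i => x0 i - 2 * l) (fun i => x0 i + 2 * l),
    ‖iteratedFDeriv ℝ m (fun x => G (l, zz l x0 x)) x‖ ≤ C * (l⁻¹) ^ m := by
  have hK : IsCompact (Icc (0 : ℝ) 1 ×ˢ Icc (fun _ : Fin d => (-2 : ℝ)) (fun _ => 2)) :=
    isCompact_Icc.prod isCompact_Icc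
  have hcont : Continuous (iteratedFDeriv ℝ m G) :=
    hG.continuous_iteratedFDeriv (by exact_mod_cast le_top)
  obtain ⟨C, hC⟩ := hK.exists_bound_of_continuousOn hcont.continuousOn
  refine ⟨C, ?_, ?_⟩
  · refine (norm_nonneg _).trans (hC (0, 0) ⟨⟨le_rfl, zero_le_one⟩, ?_⟩)
    exact ⟨fun i => by show (-2 : ℝ) ≤ 0; norm_num, fun i => by show (0 : ℝ) ≤ 2; norm_num⟩
  intro l hl hl1 x hx
  have e : (fun x => G (l, zz l x0 x)) =
      (fun q => G (q + (l, -(l⁻¹ • x0)))) ∘ (LL d l) := by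
    funext x
    rw [aff_eq]
    rfl
  have hG' : ContDiff ℝ (⊤ : ℕ∞) (fun q => G (q + (l, -(l⁻¹ • x0)))) :=
    hG.comp (contDiff_id.add contDiff_const)
  rw [e, ContinuousLinearMap.iteratedFDeriv_comp_right (LL d l) hG' x
    (i := m) (by exact_mod_cast le_top)]
  refine (ContinuousMultilinearMap.norm_compContinuousLinearMap_le _ _).trans ?_
  rw [iteratedFDeriv_comp_add_right, ← aff_eq]
  have h1 : ‖iteratedFDeriv ℝ m G (l, zz l x0 x)‖ ≤ C :=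
    hC _ ⟨⟨hl.le, hl1⟩, zz_small x0 hl hx⟩
  have h2 : ∏ _i : Fin m, ‖LL d l‖ ≤ (l⁻¹) ^ m := by
    rw [Finset.prod_const, Finset.card_univ, Fintype.card_fin]
    exact pow_le_pow_left₀ (norm_nonneg _) (norm_LL hl) m
  exact mul_le_mul h1 h2 (Finset.prod_nonneg fun _ _ => norm_nonneg _)
    ((norm_nonneg _).trans h1)

lemma int_bound {F : Type} [NormedAddCommGroup F] {l : ℝ} (hl : 0 < l) {f : (Fin d → ℝ) → F}
    {B : ℝ} (h0 : ∀ x, x ∉ Icc (fun i => x0 i - 2 * l) (fun i => x0 i + 2 * l) → f x = 0)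
    (h1 : ∀ x ∈ Icc (fun i => x0 i - 2 * l) (fun i => x0 i + 2 * l), ‖f x‖ ≤ B) :
    ∫ x, ‖f x‖ ^ 2 ≤ B ^ 2 * (4 * l) ^ d := by
  set S : Set (Fin d → ℝ) := Icc (fun i => x0 i - 2 * l) (fun i => x0 i + 2 * l) with hS
  have e1 : ∫ x, ‖f x‖ ^ 2 = ∫ x in S, ‖f x‖ ^ 2 :=
    (setIntegral_eq_integral_of_forall_compl_eq_zero fun x hx => by
      rw [h0 x hx, norm_zero]; simp).symm
  have hpt : ∀ x ∈ S, ‖‖f x‖ ^ 2‖ ≤ B ^ 2 := by
    intro x hx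
    rw [Real.norm_of_nonneg (by positivity)]
    exact pow_le_pow_left₀ (norm_nonneg _) (h1 x hx) 2
  have hvol : volume.real S = (4 * l) ^ d := by
    rw [Measure.real, hS, Real.volume_Icc_pi_toReal]
    · have : ∀ i : Fin d, x0 i + 2 * l - (x0 i - 2 * l) = 4 * l := fun i => by ring
      simp only [this]
      simp
    · intro i
      show x0 i - 2 * l ≤ x0 i + 2 * l
      linarith
  have hfin : volume S < ⊤ := isCompact_Icc.measure_lt_top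
  have h2 := norm_setIntegral_le_of_norm_le_const hfin hpt
  rw [hvol] at h2
  rw [e1]
  exact (le_abs_self _).trans h2

/-- the two functions of the scaling parameter -/
noncomputable def GG0 (V : (Fin (d + 1) → ℝ) → (Fin (n + 1) → ℝ))
    (v0 : (Fin d → ℝ) → (Fin (n + 1) → ℝ)) (x0 : Fin d → ℝ) (p : ℝ × (Fin d → ℝ)) :
    Fin (n + 1) → ℝ := F0 V p.2 - c0 p.2 • v0 (x0 + p.1 • p.2)

/-- the two functions of the scaling parameter -/
noncomputable def GG1 (V : (Fin (d + 1) → ℝ) → (Fin (n + 1) → ℝ))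
    (v1 : (Fin d → ℝ) → (Fin (n + 1) → ℝ)) (x0 : Fin d → ℝ) (p : ℝ × (Fin d → ℝ)) :
    Fin (n + 1) → ℝ := F1 V p.2 - (p.1 * c0 p.2) • v1 (x0 + p.1 • p.2)

include hV hv0 in
lemma contDiff_GG0 : ContDiff ℝ (⊤ : ℕ∞) (GG0 V v0 x0) := by
  unfold GG0
  refine ((contDiff_F0 hV).comp contDiff_snd).sub ?_
  refine (contDiff_c0.comp contDiff_snd).smul (hv0.comp ?_)
  exact contDiff_const.add (contDiff_fst.smul contDiff_snd)

include hV hv1 in
lemma contDiff_GG1 : ContDiff ℝ (⊤ : ℕ∞) (GG1 V v1 x0) := by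
  unfold GG1
  refine ((contDiff_F1 hV).comp contDiff_snd).sub ?_
  refine (contDiff_fst.mul (contDiff_c0.comp contDiff_snd)).smul (hv1.comp ?_)
  exact contDiff_const.add (contDiff_fst.smul contDiff_snd)

lemma zz_back {l : ℝ} (hl : 0 < l) (x : Fin d → ℝ) : x0 + l • zz l x0 x = x := by
  unfold zz
  rw [smul_smul, mul_inv_cancel₀ hl.ne', one_smul]
  abel

lemma diff0 {l : ℝ} (hl : 0 < l) : (fun x => U0 V v0 x0 l x - v0 x) =
    fun x => GG0 V v0 x0 (l, zz l x0 x) := by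
  funext x
  unfold U0 GG0
  rw [zz_back x0 hl, sub_smul, one_smul]
  abel

lemma diff1 {l : ℝ} (hl : 0 < l) : (fun x => U1 V v1 x0 l x - v1 x) =
    l⁻¹ • fun x => GG1 V v1 x0 (l, zz l x0 x) := by
  funext x
  rw [Pi.smul_apply]
  unfold U1 GG1
  rw [zz_back x0 hl, sub_smul, one_smul, smul_sub, smul_smul, ← mul_assoc,
    inv_mul_cancel₀ hl.ne', one_mul]
  abel

lemma zero0 {l : ℝ} (hl : 0 < l) (m : ℕ) (x : Fin d → ℝ)
    (hx : x ∉ Icc (fun i => x0 i - 2 * l) (fun i => x0 i + 2 * l)) :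
    iteratedFDeriv ℝ m (fun x => U0 V v0 x0 l x - v0 x) x = 0 := by
  obtain ⟨i, hi⟩ := zz_big x0 hl hx
  have hop : IsOpen {y : Fin d → ℝ | 2 < |zz l x0 y i|} := by
    refine isOpen_lt continuous_const (Continuous.abs ?_)
    exact (continuous_apply i).comp (contDiff_zz (m := 0) l x0).continuous
  have h2 : (fun y => U0 V v0 x0 l y - v0 y) =ᶠ[𝓝 x] fun _ => 0 := by
    filter_upwards [hop.mem_nhds hi] with y hy
    rw [U0_eq x0 (ns_big hy).le, sub_self]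
  rw [(h2.iteratedFDeriv (𝕜 := ℝ) m).eq_of_nhds]
  simp

lemma zero1 {l : ℝ} (hl : 0 < l) (m : ℕ) (x : Fin d → ℝ)
    (hx : x ∉ Icc (fun i => x0 i - 2 * l) (fun i => x0 i + 2 * l)) :
    iteratedFDeriv ℝ m (fun x => U1 V v1 x0 l x - v1 x) x = 0 := by
  obtain ⟨i, hi⟩ := zz_big x0 hl hx
  have hop : IsOpen {y : Fin d → ℝ | 2 < |zz l x0 y i|} := by
    refine isOpen_lt continuous_const (Continuous.abs ?_)
    exact (continuous_apply i).comp (contDiff_zz (m := 0) l x0).continuous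
  have h2 : (fun y => U1 V v1 x0 l y - v1 y) =ᶠ[𝓝 x] fun _ => 0 := by
    filter_upwards [hop.mem_nhds hi] with y hy
    rw [U1_eq x0 (ns_big hy).le, sub_self]
  rw [(h2.iteratedFDeriv (𝕜 := ℝ) m).eq_of_nhds]
  simp

lemma pow_est {l C : ℝ} (hl : 0 < l) (hl1 : l ≤ 1) {m : ℕ} (hm : 2 * m < d) :
    (C * (l⁻¹) ^ m) ^ 2 * (4 * l) ^ d ≤ C ^ 2 * 4 ^ d * l := by
  obtain ⟨e, rfl⟩ := Nat.exists_eq_add_of_lt hm
  have h1 : (C * (l⁻¹) ^ m) ^ 2 * (4 * l) ^ (2 * m + e + 1) =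
      C ^ 2 * 4 ^ (2 * m + e + 1) * l * l ^ e := by
    have h2 : (l⁻¹) ^ (2 * m) * l ^ (2 * m) = 1 := by
      rw [← mul_pow, inv_mul_cancel₀ hl.ne', one_pow]
    have h3 : (C * (l⁻¹) ^ m) ^ 2 = C ^ 2 * (l⁻¹) ^ (2 * m) := by
      rw [mul_pow, ← pow_mul, mul_comm m 2]
    rw [h3, mul_pow, pow_succ, pow_add, pow_succ l, pow_add l]
    linear_combination (C ^ 2 * (4 ^ (2 * m) * 4 ^ e * 4) * l ^ e * l) * h2
  rw [h1]
  apply mul_le_of_le_one_right (by positivity)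
  exact pow_le_one₀ hl.le hl1

include hV hv0 in
theorem small0 : ∃ C : ℝ, 0 ≤ C ∧ ∀ m : ℕ, 2 * m < d → ∀ l : ℝ, 0 < l → l ≤ 1 →
    ∫ x, ‖iteratedFDeriv ℝ m (fun x => U0 V v0 x0 l x - v0 x) x‖ ^ 2 ≤ C * l := by
  choose C hC hb using fun m => iter_bound x0 (contDiff_GG0 hV hv0 x0) m
  refine ⟨∑ m ∈ Finset.range d, C m ^ 2 * 4 ^ d, by positivity, ?_⟩
  intro m hm l hl hl1
  refine (int_bound x0 hl (zero0 x0 hl m) (B := C m * (l⁻¹) ^ m) ?_).trans ?_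
  · intro x hx
    rw [diff0 x0 hl]
    exact hb m l hl hl1 x hx
  · refine (pow_est hl hl1 hm).trans ?_
    apply mul_le_mul_of_nonneg_right _ hl.le
    exact Finset.single_le_sum (f := fun m => C m ^ 2 * 4 ^ d) (fun _ _ => by positivity)
      (Finset.mem_range.2 (by omega))

include hV hv1 in
theorem small1 : ∃ C : ℝ, 0 ≤ C ∧ ∀ m : ℕ, 2 * (m + 1) < d → ∀ l : ℝ, 0 < l → l ≤ 1 →
    ∫ x, ‖iteratedFDeriv ℝ m (fun x => U1 V v1 x0 l x - v1 x) x‖ ^ 2 ≤ C * l := by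
  choose C hC hb using fun m => iter_bound x0 (contDiff_GG1 hV hv1 x0) m
  refine ⟨∑ m ∈ Finset.range d, C m ^ 2 * 4 ^ d, by positivity, ?_⟩
  intro m hm l hl hl1
  refine (int_bound x0 hl (zero1 x0 hl m) (B := C m * (l⁻¹) ^ (m + 1)) ?_).trans ?_
  · intro x hx
    rw [diff1 x0 hl]
    have hs : ContDiff ℝ (⊤ : ℕ∞) (fun x => GG1 V v1 x0 (l, zz l x0 x)) :=
      (contDiff_GG1 hV hv1 x0).comp (contDiff_const.prodMk (contDiff_zz l x0))
    rw [iteratedFDeriv_const_smul_apply (hs.contDiffAt.of_le (by exact_mod_cast le_top)),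
      norm_smul, Real.norm_of_nonneg (inv_nonneg.2 hl.le)]
    have h1 := mul_le_mul_of_nonneg_left (hb m l hl hl1 x hx) (inv_nonneg.2 hl.le)
    refine h1.trans (le_of_eq ?_)
    ring
  · refine (pow_est hl hl1 hm).trans ?_
    apply mul_le_mul_of_nonneg_right _ hl.le
    exact Finset.single_le_sum (f := fun m => C m ^ 2 * 4 ^ d) (fun _ _ => by positivity)
      (Finset.mem_range.2 (by omega))

end

end Pool.Agent.Y276.WM
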