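import Pool.Agent.Y276.WM.Un
import Pool.Agent.H733R2.BCut

set_option autoImplicit false
set_option linter.unusedSectionVars false

namespace Pool.Agent.Y276.WM

open Set Filter Topology
open Pool.Agent.H733R2 (UU Om Profile fld ww Sm isOpen_Om)

variable {d n : ℕ}

/-- projection on the first four coordinates -/
noncomputable def prj (h : 4 ≤ d + 1) : (Fin (d + 1) → ℝ) →L[ℝ] (Fin 4 → ℝ) :=
  ContinuousLinearMap.pi fun i => ContinuousLinearMap.proj (Fin.castLE h i)

/-- embedding of a hyperbolic plane -/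
noncomputable def emb (n : ℕ) : (Fin 3 → ℝ) →L[ℝ] (Fin (n + 1) → ℝ) :=
  ContinuousLinearMap.pi fun k =>
    if k = Fin.last n then ContinuousLinearMap.proj 2
    else if k = 0 then ContinuousLinearMap.proj 0 else 0

lemma prj_apply (h : 4 ≤ d + 1) (Y : Fin (d + 1) → ℝ) (i : Fin 4) :
    prj h Y i = Y (Fin.castLE h i) := rfl

lemma emb_apply (y : Fin 3 → ℝ) (k : Fin (n + 1)) :
    emb n y k = if k = Fin.last n then y 2 else if k = 0 then y 0 else 0 := by
  unfold emb
  rw [ContinuousLinearMap.pi_apply]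
  split_ifs <;> rfl

lemma prj_single (h : 4 ≤ d + 1) (i : Fin 4) :
    prj h (Pi.single (Fin.castLE h i) 1) = Pi.single i 1 := by
  funext l
  rw [prj_apply]
  by_cases hl : l = i
  · subst hl
    rw [Pi.single_eq_same, Pi.single_eq_same]
  · rw [Pi.single_eq_of_ne hl, Pi.single_eq_of_ne]
    intro h'
    exact hl (Fin.castLE_injective h h')

lemma prj_single' (h : 4 ≤ d + 1) {μ : Fin (d + 1)} (hμ : μ ∉ Set.range (Fin.castLE h)) :
    prj h (Pi.single μ 1) = 0 := by
  funext l
  rw [prj_apply, Pi.zero_apply, Pi.single_eq_of_ne]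
  intro h'
  exact hμ ⟨l, h'⟩

lemma castLE_zero (h : 4 ≤ d + 1) : Fin.castLE h 0 = 0 := rfl

lemma castLE_eq_zero (h : 4 ≤ d + 1) (i : Fin 4) : Fin.castLE h i = 0 ↔ i = 0 := by
  constructor
  · intro h1
    exact Fin.castLE_injective h (h1.trans (castLE_zero h).symm)
  · rintro rfl; rfl

section
variable {U : (Fin 4 → ℝ) → (Fin 3 → ℝ)} (hU : ContDiffOn ℝ (⊤ : ℕ∞) U Om) (h : 4 ≤ d + 1)

/-- the model in general dimensions -/
noncomputable def lft (n : ℕ) (h : 4 ≤ d + 1) (U : (Fin 4 → ℝ) → (Fin 3 → ℝ))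
    (Y : Fin (d + 1) → ℝ) : Fin (n + 1) → ℝ := emb n (U (prj h Y))

/-- its domain -/
def OV (h : 4 ≤ d + 1) : Set (Fin (d + 1) → ℝ) := prj h ⁻¹' Om

lemma isOpen_OV : IsOpen (OV h) := isOpen_Om.preimage (prj h).continuous

include hU

lemma contDiffOn_lft : ContDiffOn ℝ (⊤ : ℕ∞) (lft n h U) (OV h) := by
  have h1 : ContDiffOn ℝ (⊤ : ℕ∞) (fun Y => U (prj h Y)) (OV h) :=
    hU.comp (prj h).contDiff.contDiffOn fun Y hY => hY
  exact (emb n).contDiff.comp_contDiffOn h1

lemma fderiv_lft {Y : Fin (d + 1) → ℝ} (hY : Y ∈ OV h) (v : Fin (d + 1) → ℝ) :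
    fderiv ℝ (lft n h U) Y v = emb n (fderiv ℝ U (prj h Y) (prj h v)) := by
  have h1 : HasFDerivAt U (fderiv ℝ U (prj h Y)) (prj h Y) :=
    ((hU.contDiffAt (isOpen_Om.mem_nhds hY)).differentiableAt (by simp)).hasFDerivAt
  have h2 := ((emb n).hasFDerivAt (x := U (prj h Y))).comp Y (h1.comp Y (prj h).hasFDerivAt)
  have h3 : HasFDerivAt (lft n h U) _ Y := h2
  rw [h3.fderiv]
  rfl

lemma second_lft {P : Fin (d + 1) → ℝ} (hP : P ∈ OV h) (k : Fin (n + 1)) (i : Fin 4) :
    fderiv ℝ (fun Y => fderiv ℝ (lft n h U) Y (Pi.single (Fin.castLE h i) 1) k) P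
      (Pi.single (Fin.castLE h i) 1) =
      emb n (fun l => fderiv ℝ (fun Z => fderiv ℝ U Z (Pi.single i 1) l) (prj h P)
        (Pi.single i 1)) k := by
  have h0 : (fun Y => fderiv ℝ (lft n h U) Y (Pi.single (Fin.castLE h i) 1) k) =ᶠ[𝓝 P]
      fun Y => emb n (fderiv ℝ U (prj h Y) (Pi.single i 1)) k := by
    filter_upwards [(isOpen_OV h).mem_nhds hP] with Y hY
    rw [fderiv_lft hU h hY, prj_single]
  rw [h0.fderiv_eq]
  have hd : ContDiffAt ℝ (⊤ : ℕ∞) (fderiv ℝ U) (prj h P) :=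
    (hU.contDiffAt (isOpen_Om.mem_nhds hP)).fderiv_right (by simp)
  have hd1 : DifferentiableAt ℝ (fun Z => fderiv ℝ U Z (Pi.single i 1)) (prj h P) :=
    (hd.clm_apply contDiffAt_const).differentiableAt (by simp)
  have h1 := hd1.hasFDerivAt
  have h2 := ((emb n).hasFDerivAt (x := fderiv ℝ U (prj h P) (Pi.single i 1))).comp P
    (h1.comp P (prj h).hasFDerivAt)
  have h3 := hasFDerivAt_pi'.1 h2 k
  have h4 : HasFDerivAt (fun Y => emb n (fderiv ℝ U (prj h Y) (Pi.single i 1)) k) _ P := h3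
  rw [h4.fderiv]
  show emb n (fderiv ℝ (fun Z => fderiv ℝ U Z (Pi.single i 1)) (prj h P)
    (prj h (Pi.single (Fin.castLE h i) 1))) k = _
  rw [prj_single]
  refine congrArg (fun y => emb n y k) (funext fun l => ?_)
  have h5 := hasFDerivAt_pi'.1 h1 l
  have h6 : HasFDerivAt (fun Z => fderiv ℝ U Z (Pi.single i 1) l) _ (prj h P) := h5
  rw [h6.fderiv]
  rfl

lemma second_lft' {P : Fin (d + 1) → ℝ} (hP : P ∈ OV h) (k : Fin (n + 1)) {μ : Fin (d + 1)}
    (hμ : μ ∉ Set.range (Fin.castLE h)) :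
    fderiv ℝ (fun Y => fderiv ℝ (lft n h U) Y (Pi.single μ 1) k) P (Pi.single μ 1) = 0 := by
  have h0 : (fun Y => fderiv ℝ (lft n h U) Y (Pi.single μ 1) k) =ᶠ[𝓝 P] fun _ => 0 := by
    filter_upwards [(isOpen_OV h).mem_nhds hP] with Y hY
    rw [fderiv_lft hU h hY, prj_single' h hμ, map_zero, map_zero]
    rfl
  rw [h0.fderiv_eq]
  simp

lemma sum_range {F : Fin (d + 1) → ℝ} {G : Fin 4 → ℝ} (h1 : ∀ i, F (Fin.castLE h i) = G i)
    (h2 : ∀ μ, μ ∉ Set.range (Fin.castLE h) → F μ = 0) : ∑ μ, F μ = ∑ i, G i :=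
  (Fintype.sum_of_injective (Fin.castLE h) (Fin.castLE_injective h) G F h2
    fun i => (h1 i).symm).symm

lemma wm_lft {P : Fin (d + 1) → ℝ} (hP : P ∈ OV h) (hn : 1 ≤ n)
    (h1 : ∀ i : Fin 4, fderiv ℝ U (prj h P) (Pi.single i 1) 1 = 0) (k : Fin (n + 1)) :
    wm (lft n h U) P k = emb n (fun l => wm (d := 3) (n := 2) U (prj h P) l) k := by
  rw [wm_eq]
  have hbox : box (lft n h U) k P = emb n (fun l => box (d := 3) U l (prj h P)) k := by
    unfold box
    rw [sum_range hU h (G := fun i => (if i = 0 then (-1 : ℝ) else 1) *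
      emb n (fun l => fderiv ℝ (fun Z => fderiv ℝ U Z (Pi.single i 1) l) (prj h P)
        (Pi.single i 1)) k)]
    · simp only [emb_apply]
      split_ifs <;> simp
    · intro i
      rw [second_lft hU h hP]
      by_cases hi : i = 0
      · rw [if_pos hi, if_pos ((castLE_eq_zero h i).2 hi)]
      · rw [if_neg hi, if_neg (fun h' => hi ((castLE_eq_zero h i).1 h'))]
    · intro μ hμ
      rw [second_lft' hU h hP k hμ, mul_zero]
  have hlast : lft n h U P (Fin.last n) = U (prj h P) 2 := by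
    unfold lft
    rw [emb_apply, if_pos rfl]
  have hNL : NL (lft n h U P (Fin.last n)) (fun μ i => pd (lft n h U) μ i P) k =
      emb n (fun l => NL (d := 3) (n := 2) (U (prj h P) 2)
        (fun μ i => pd (d := 3) U μ i (prj h P)) l) k := by
    rw [hlast]
    unfold NL
    have hpd : ∀ i : Fin 4, (fun l => pd (lft n h U) (Fin.castLE h i) l P) =
        emb n (fun l => pd (d := 3) U i l (prj h P)) := by
      intro i
      funext l
      unfold pd
      rw [fderiv_lft hU h hP, prj_single]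
    have hpd' : ∀ μ, μ ∉ Set.range (Fin.castLE h) →
        (fun l => pd (lft n h U) μ l P) = 0 := by
      intro μ hμ
      funext l
      unfold pd
      rw [fderiv_lft hU h hP, prj_single' h hμ, map_zero, map_zero]
    have h0L : (0 : Fin (n + 1)) ≠ Fin.last n := by
      intro h'
      have := congrArg Fin.val h'
      simp at this
      omega
    have hqd : ∀ a : Fin 3 → ℝ, a 1 = 0 → qd (emb n a) k = emb n (fun l => qd (n := 2) a l) k := by
      intro a ha
      have h3 : ∑ i, emb n a i * emb n a i = a 0 * a 0 + a 2 * a 2 := by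
        have h4 : ∀ i, emb n a i * emb n a i =
            (if i = Fin.last n then a 2 * a 2 else 0) + (if i = 0 then a 0 * a 0 else 0) := by
          intro i
          rw [emb_apply]
          by_cases hi : i = Fin.last n
          · subst hi
            rw [if_pos rfl, if_pos rfl, if_neg (Ne.symm h0L), add_zero]
          · rw [if_neg hi, if_neg hi, zero_add]
            split_ifs <;> simp
        rw [Finset.sum_congr rfl fun i _ => h4 i, Finset.sum_add_distrib]
        simp
        ring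
      have hs : ∑ i : Fin (2 + 1), a i * a i = a 0 * a 0 + a 1 * a 1 + a 2 * a 2 :=
        Fin.sum_univ_three _
      have e2 : Fin.last 2 = (2 : Fin 3) := rfl
      have e3 : ¬ (0 : Fin 3) = 2 := by decide
      unfold qd
      rw [h3, hs, ha]
      simp only [emb_apply, if_true]
      by_cases hk : k = Fin.last n
      · subst hk
        simp only [if_true, e2]
        ring
      · rw [if_neg hk, if_neg hk, if_neg hk]
        by_cases hk0 : k = 0
        · rw [if_pos hk0, if_pos hk0, e2, if_neg e3]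
        · rw [if_neg hk0, if_neg hk0]
          ring
    rw [sum_range hU h (G := fun i => (if i = 0 then (-1 : ℝ) else 1) *
      (emb n (fun l => qd (n := 2) (fun l => pd (d := 3) U i l (prj h P)) l) k / U (prj h P) 2))]
    · simp only [emb_apply]
      split_ifs <;> simp
    · intro i
      show (if Fin.castLE h i = 0 then (-1 : ℝ) else 1) *
        (qd (fun l => pd (lft n h U) (Fin.castLE h i) l P) k / U (prj h P) 2) = _
      rw [hpd i, hqd (fun l => pd (d := 3) U i l (prj h P)) (h1 i)]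
      by_cases hi : i = 0
      · rw [if_pos hi, if_pos ((castLE_eq_zero h i).2 hi)]
      · rw [if_neg hi, if_neg (fun h' => hi ((castLE_eq_zero h i).1 h'))]
    · intro μ hμ
      show (if μ = 0 then (-1 : ℝ) else 1) *
        (qd (fun l => pd (lft n h U) μ l P) k / U (prj h P) 2) = 0
      rw [hpd' μ hμ]
      unfold qd
      simp
  rw [hbox, hNL]
  simp only [emb_apply]
  split_ifs
  · rw [wm_eq]; rfl
  · rw [wm_eq]; rfl
  · ring

end

/-- the model solution -/
theorem wm_model {a : ℝ} {X Z : ℝ → ℝ} (hp : Profile a X Z) (h : 4 ≤ d + 1) (hn : 1 ≤ n)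
    {P : Fin (d + 1) → ℝ} (hP : P ∈ OV h) (k : Fin (n + 1)) :
    wm (lft n h (UU a X Z)) P k = 0 := by
  have hX : Sm X := hp.smoothX
  have hZ : Sm Z := hp.smoothZ
  have hU : ContDiffOn ℝ (⊤ : ℕ∞) (UU a X Z) Om := fun Y hY =>
    (Pool.Agent.H733R2.contDiffAt_UU hX hZ hY).contDiffWithinAt
  rw [wm_lft hU h hP hn]
  · have h2 : ∀ l, wm (d := 3) (n := 2) (UU a X Z) (prj h P) l = 0 := fun l =>
      Pool.Agent.H733R2.eqn_UU hp hP l
    simp only [h2]
    rw [emb_apply]
    split_ifs <;> rfl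
  · intro i
    exact Pool.Agent.H733R2.pd_UU hX hZ hP i 1

end Pool.Agent.Y276.WM
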