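import Pool.Agent.Y276.WM.En

set_option autoImplicit false

namespace Pool.Agent.Y276.WM

open Set Filter Topology
open scoped Manifold ContDiff

/-- the Christoffel symbols of hyperbolic space in the upper half space model, at height `y` -/
noncomputable def Gam {n : ℕ} (y : ℝ) (k i j : Fin (n + 1)) : ℝ :=
  -((if i = k then 1 else 0) * (if j = Fin.last n then 1 else 0)
    + (if j = k then 1 else 0) * (if i = Fin.last n then 1 else 0)
    - (if i = j then 1 else 0) * (if k = Fin.last n then 1 else 0)) / y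

/-- the left side of the `k`-th equation of the wave map system -/
noncomputable def wm {d n : ℕ} (u : (Fin (d + 1) → ℝ) → (Fin (n + 1) → ℝ)) (P : Fin (d + 1) → ℝ)
    (k : Fin (n + 1)) : ℝ :=
  ∑ μ : Fin (d + 1), (if μ = 0 then -1 else 1) *
    (fderiv ℝ (fun Y => fderiv ℝ u Y (Pi.single μ 1) k) P (Pi.single μ 1) +
      ∑ i : Fin (n + 1), ∑ j : Fin (n + 1), Gam (u P (Fin.last n)) k i j *
        fderiv ℝ u P (Pi.single μ 1) i * fderiv ℝ u P (Pi.single μ 1) j)

variable {d n : ℕ}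

/-- the quadratic form in the equation -/
noncomputable def qd (a : Fin (n + 1) → ℝ) (k : Fin (n + 1)) : ℝ :=
  (if k = Fin.last n then ∑ i, a i * a i else 0) - 2 * (a k * a (Fin.last n))

lemma sum_Gam (y : ℝ) (k : Fin (n + 1)) (a : Fin (n + 1) → ℝ) :
    ∑ i : Fin (n + 1), ∑ j : Fin (n + 1), Gam y k i j * a i * a j = qd a k / y := by
  have h1 : ∀ i j : Fin (n + 1), Gam y k i j * a i * a j =
      (1 / y) * (((if i = j then 1 else 0) * (if k = Fin.last n then 1 else 0)) * a i * a j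
        - ((if i = k then a i else 0) * (if j = Fin.last n then a j else 0))
        - ((if i = Fin.last n then a i else 0) * (if j = k then a j else 0))) := by
    intro i j
    unfold Gam
    split_ifs <;> ring
  simp only [h1, ← Finset.mul_sum, Finset.sum_sub_distrib]
  have h2 : ∀ i : Fin (n + 1), ∑ j : Fin (n + 1),
      ((if i = j then (1 : ℝ) else 0) * (if k = Fin.last n then 1 else 0)) * a i * a j =
      (if k = Fin.last n then a i * a i else 0) := by
    intro i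
    rw [Finset.sum_eq_single i]
    · rw [if_pos rfl]
      split_ifs <;> simp
    · intro j _ hj
      rw [if_neg (Ne.symm hj)]
      ring
    · intro h; exact absurd (Finset.mem_univ _) h
  simp only [h2, Finset.sum_ite_eq', Finset.mem_univ, if_true, ← Finset.sum_mul]
  unfold qd
  split_ifs
  · ring
  · simp
    ring

/-- the quadratic part of the equation -/
noncomputable def NL (p : ℝ) (D : Fin (d + 1) → Fin (n + 1) → ℝ) (k : Fin (n + 1)) : ℝ :=
  ∑ μ : Fin (d + 1), (if μ = 0 then (-1 : ℝ) else 1) * (qd (D μ) k / p)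

lemma wm_eq (u : (Fin (d + 1) → ℝ) → (Fin (n + 1) → ℝ)) (P : Fin (d + 1) → ℝ) (k : Fin (n + 1)) :
    wm u P k = box u k P + NL (u P (Fin.last n)) (fun μ i => pd u μ i P) k := by
  unfold wm box NL
  rw [← Finset.sum_add_distrib]
  refine Finset.sum_congr rfl fun μ _ => ?_
  rw [← mul_add, sum_Gam]
  rfl

lemma box_congr {N : ℕ} {u v : (Fin (d + 1) → ℝ) → (Fin N → ℝ)} {P : Fin (d + 1) → ℝ}
    (h : u =ᶠ[𝓝 P] v) (k : Fin N) : box u k P = box v k P := by
  unfold box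
  apply Finset.sum_congr rfl
  intro μ _
  have h1 : (fun Y => fderiv ℝ u Y (Pi.single μ 1) k) =ᶠ[𝓝 P]
      fun Y => fderiv ℝ v Y (Pi.single μ 1) k := by
    filter_upwards [h.eventuallyEq_nhds] with Y hY
    rw [hY.fderiv_eq]
  rw [h1.fderiv_eq]

lemma pd_congr {N : ℕ} {u v : (Fin (d + 1) → ℝ) → (Fin N → ℝ)} {P : Fin (d + 1) → ℝ}
    (h : u =ᶠ[𝓝 P] v) (μ : Fin (d + 1)) (k : Fin N) : pd u μ k P = pd v μ k P := by
  unfold pd
  rw [h.fderiv_eq]

lemma wm_congr {u v : (Fin (d + 1) → ℝ) → (Fin (n + 1) → ℝ)} {P : Fin (d + 1) → ℝ}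
    (h : u =ᶠ[𝓝 P] v) (k : Fin (n + 1)) : wm u P k = wm v P k := by
  rw [wm_eq, wm_eq, box_congr h, h.eq_of_nhds]
  have : (fun μ i => pd u μ i P) = fun μ i => pd v μ i P := by
    funext μ i; exact pd_congr h μ i
  rw [this]

lemma quot_diff {m M x y x' y' p q : ℝ} (hm : 0 < m) (hx : |x| ≤ M) (hy : |y| ≤ M)
    (hx' : |x'| ≤ M) (hp : m ≤ p) (hq : m ≤ q) :
    |x * y / p - x' * y' / q| ≤ M ^ 2 / m ^ 2 * |p - q| + M / m * (|x - x'| + |y - y'|) := by
  have hp0 : 0 < p := hm.trans_le hp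
  have hq0 : 0 < q := hm.trans_le hq
  have hM : 0 ≤ M := (abs_nonneg x).trans hx
  have e : x * y / p - x' * y' / q =
      (x * y) * ((q - p) / (p * q)) + ((x - x') * y / q + x' * (y - y') / q) := by
    field_simp
    ring
  rw [e]
  have h1 : |(x * y) * ((q - p) / (p * q))| ≤ M ^ 2 / m ^ 2 * |p - q| := by
    rw [abs_mul, abs_mul, abs_div, abs_of_pos (mul_pos hp0 hq0), abs_sub_comm q p]
    have h2 : |x| * |y| ≤ M ^ 2 := by
      rw [pow_two]; exact mul_le_mul hx hy (abs_nonneg _) hM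
    have h3 : |p - q| / (p * q) ≤ |p - q| / m ^ 2 := by
      apply div_le_div_of_nonneg_left (abs_nonneg _) (by positivity)
      rw [pow_two]; exact mul_le_mul hp hq hm.le hp0.le
    calc |x| * |y| * (|p - q| / (p * q)) ≤ M ^ 2 * (|p - q| / m ^ 2) := by
          exact mul_le_mul h2 h3 (by positivity) (by positivity)
      _ = M ^ 2 / m ^ 2 * |p - q| := by ring
  have h4 : |(x - x') * y / q| ≤ M / m * |x - x'| := by
    rw [abs_div, abs_mul, abs_of_pos hq0]
    calc |x - x'| * |y| / q ≤ |x - x'| * M / m := by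
          apply div_le_div₀ (by positivity) _ hm hq
          exact mul_le_mul_of_nonneg_left hy (abs_nonneg _)
      _ = M / m * |x - x'| := by ring
  have h5 : |x' * (y - y') / q| ≤ M / m * |y - y'| := by
    rw [abs_div, abs_mul, abs_of_pos hq0]
    calc |x'| * |y - y'| / q ≤ M * |y - y'| / m := by
          apply div_le_div₀ (by positivity) _ hm hq
          exact mul_le_mul_of_nonneg_right hx' (abs_nonneg _)
      _ = M / m * |y - y'| := by ring
  calc _ ≤ |(x * y) * ((q - p) / (p * q))| + |(x - x') * y / q + x' * (y - y') / q| :=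
        abs_add_le _ _
    _ ≤ |(x * y) * ((q - p) / (p * q))| + (|(x - x') * y / q| + |x' * (y - y') / q|) := by
        gcongr
        exact abs_add_le _ _
    _ ≤ _ := by
        have : M / m * (|x - x'| + |y - y'|) = M / m * |x - x'| + M / m * |y - y'| := by ring
        rw [this]
        linarith

lemma NL_diff {m M : ℝ} (hm : 0 < m) (k : Fin (n + 1)) {p q : ℝ} (hp : m ≤ p) (hq : m ≤ q)
    {D E : Fin (d + 1) → Fin (n + 1) → ℝ} (hD : ∀ μ i, |D μ i| ≤ M) (hE : ∀ μ i, |E μ i| ≤ M) :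
    |NL p D k - NL q E k| ≤ ((d + 1) * ((n + 1) + 2)) * (M ^ 2 / m ^ 2 + 2 * (M / m)) *
      (|p - q| + ∑ μ : Fin (d + 1), ∑ i : Fin (n + 1), |D μ i - E μ i|) := by
  have hM : 0 ≤ M := (abs_nonneg _).trans (hD 0 0)
  set S : ℝ := |p - q| + ∑ μ : Fin (d + 1), ∑ i : Fin (n + 1), |D μ i - E μ i| with hS
  set K : ℝ := M ^ 2 / m ^ 2 + 2 * (M / m) with hK
  have hSpq : |p - q| ≤ S := by
    have : 0 ≤ ∑ μ : Fin (d + 1), ∑ i : Fin (n + 1), |D μ i - E μ i| :=
      Finset.sum_nonneg fun μ _ => Finset.sum_nonneg fun i _ => abs_nonneg _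
    linarith
  have hSi : ∀ μ i, |D μ i - E μ i| ≤ S := by
    intro μ i
    have h1 : |D μ i - E μ i| ≤ ∑ i : Fin (n + 1), |D μ i - E μ i| :=
      Finset.single_le_sum (f := fun i => |D μ i - E μ i|) (fun i _ => abs_nonneg _)
        (Finset.mem_univ i)
    have h2 : ∑ i : Fin (n + 1), |D μ i - E μ i| ≤
        ∑ μ : Fin (d + 1), ∑ i : Fin (n + 1), |D μ i - E μ i| :=
      Finset.single_le_sum (f := fun μ => ∑ i : Fin (n + 1), |D μ i - E μ i|)
        (fun μ _ => Finset.sum_nonneg fun i _ => abs_nonneg _) (Finset.mem_univ μ)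
    have h3 := abs_nonneg (p - q)
    linarith
  have hS0 : 0 ≤ S := (abs_nonneg _).trans hSpq
  have hMm : 0 ≤ M / m := by positivity
  have hK0 : 0 ≤ K := by positivity
  have hterm : ∀ μ i j, |D μ i * D μ j / p - E μ i * E μ j / q| ≤ K * S := by
    intro μ i j
    have h1 := quot_diff (y' := E μ j) hm (hD μ i) (hD μ j) (hE μ i) hp hq
    have h3 : M ^ 2 / m ^ 2 * |p - q| ≤ M ^ 2 / m ^ 2 * S :=
      mul_le_mul_of_nonneg_left hSpq (by positivity)
    have h4 : M / m * (|D μ i - E μ i| + |D μ j - E μ j|) ≤ M / m * (S + S) :=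
      mul_le_mul_of_nonneg_left (add_le_add (hSi μ i) (hSi μ j)) hMm
    have : K * S = M ^ 2 / m ^ 2 * S + M / m * (S + S) := by rw [hK]; ring
    rw [this]
    linarith
  have hq1 : ∀ μ, |qd (D μ) k / p - qd (E μ) k / q| ≤ ((n + 1) + 2) * (K * S) := by
    intro μ
    have e : qd (D μ) k / p - qd (E μ) k / q =
        (if k = Fin.last n then ∑ i, (D μ i * D μ i / p - E μ i * E μ i / q) else 0) -
        2 * (D μ k * D μ (Fin.last n) / p - E μ k * E μ (Fin.last n) / q) := by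
      unfold qd
      split_ifs
      · rw [Finset.sum_sub_distrib, ← Finset.sum_div, ← Finset.sum_div]
        ring
      · ring
    rw [e]
    have h1 : |(if k = Fin.last n then ∑ i, (D μ i * D μ i / p - E μ i * E μ i / q) else 0)| ≤
        (n + 1) * (K * S) := by
      split_ifs
      · refine (Finset.abs_sum_le_sum_abs _ _).trans ?_
        calc _ ≤ ∑ i : Fin (n + 1), (K * S) := Finset.sum_le_sum fun i _ => hterm μ i i
          _ = (n + 1) * (K * S) := by simp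
      · rw [abs_zero]; positivity
    have h2 : |2 * (D μ k * D μ (Fin.last n) / p - E μ k * E μ (Fin.last n) / q)| ≤ 2 * (K * S) := by
      rw [abs_mul, abs_two]
      exact mul_le_mul_of_nonneg_left (hterm μ k (Fin.last n)) two_pos.le
    have h3 := abs_sub (if k = Fin.last n then ∑ i, (D μ i * D μ i / p - E μ i * E μ i / q) else 0)
      (2 * (D μ k * D μ (Fin.last n) / p - E μ k * E μ (Fin.last n) / q))
    linarith
  unfold NL
  rw [← Finset.sum_sub_distrib]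
  calc _ ≤ ∑ μ : Fin (d + 1), ((n + 1) + 2) * (K * S) := by
        refine (Finset.abs_sum_le_sum_abs _ _).trans (Finset.sum_le_sum fun μ _ => ?_)
        rw [← mul_sub, abs_mul]
        have hs : |(if μ = 0 then (-1 : ℝ) else 1)| = 1 := by split_ifs <;> simp
        rw [hs, one_mul]
        exact hq1 μ
    _ = _ := by simp; ring

lemma pd_sub {N : ℕ} {v W : (Fin (d + 1) → ℝ) → (Fin N → ℝ)} (hv : ContDiff ℝ (⊤ : ℕ∞) v)
    (hW : ContDiff ℝ (⊤ : ℕ∞) W) (μ : Fin (d + 1)) (k : Fin N) (P : Fin (d + 1) → ℝ) :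
    pd (fun Y => v Y - W Y) μ k P = pd v μ k P - pd W μ k P := by
  unfold pd
  rw [fderiv_fun_sub (hv.differentiable (by simp) P) (hW.differentiable (by simp) P)]
  rfl

lemma differentiable_pd {N : ℕ} {v : (Fin (d + 1) → ℝ) → (Fin N → ℝ)}
    (hv : ContDiff ℝ (⊤ : ℕ∞) v) (μ : Fin (d + 1)) (k : Fin N) :
    Differentiable ℝ (fun Y => fderiv ℝ v Y (Pi.single μ 1) k) := by
  have h1 : ContDiff ℝ (⊤ : ℕ∞) (fderiv ℝ v) := hv.fderiv_right (by simp)
  have h2 : ContDiff ℝ (⊤ : ℕ∞) (fun Y => fderiv ℝ v Y (Pi.single μ 1)) :=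
    h1.clm_apply contDiff_const
  exact (contDiff_pi.1 h2 k).differentiable (by simp)

lemma box_sub {N : ℕ} {v W : (Fin (d + 1) → ℝ) → (Fin N → ℝ)} (hv : ContDiff ℝ (⊤ : ℕ∞) v)
    (hW : ContDiff ℝ (⊤ : ℕ∞) W) (k : Fin N) (P : Fin (d + 1) → ℝ) :
    box (fun Y => v Y - W Y) k P = box v k P - box W k P := by
  unfold box
  rw [← Finset.sum_sub_distrib]
  apply Finset.sum_congr rfl
  intro μ _
  have h1 : (fun Y => fderiv ℝ (fun Y => v Y - W Y) Y (Pi.single μ 1) k) =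
      fun Y => fderiv ℝ v Y (Pi.single μ 1) k - fderiv ℝ W Y (Pi.single μ 1) k := by
    funext Y
    exact pd_sub hv hW μ k Y
  rw [h1, fderiv_fun_sub (differentiable_pd hv μ k P) (differentiable_pd hW μ k P)]
  rw [sub_apply]
  ring

lemma pd_bound {N : ℕ} {v : (Fin (d + 1) → ℝ) → (Fin N → ℝ)} (hv : ContDiff ℝ (⊤ : ℕ∞) v)
    {K : Set (Fin (d + 1) → ℝ)} (hK : IsCompact K) :
    ∃ M : ℝ, ∀ Y ∈ K, ∀ μ i, |pd v μ i Y| ≤ M := by
  have h1 : Continuous (fderiv ℝ v) := hv.continuous_fderiv (by simp)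
  obtain ⟨M, hM⟩ := hK.exists_bound_of_continuousOn h1.continuousOn
  refine ⟨M, fun Y hY μ i => ?_⟩
  unfold pd
  calc |fderiv ℝ v Y (Pi.single μ 1) i| = ‖fderiv ℝ v Y (Pi.single μ 1) i‖ := rfl
    _ ≤ ‖fderiv ℝ v Y (Pi.single μ 1)‖ := norm_le_pi_norm _ i
    _ ≤ ‖fderiv ℝ v Y‖ * ‖(Pi.single μ 1 : Fin (d + 1) → ℝ)‖ := ContinuousLinearMap.le_opNorm _ _
    _ ≤ ‖fderiv ℝ v Y‖ * 1 := by
        gcongr
        rw [Pi.norm_single]
        simp
    _ ≤ M := by rw [mul_one]; exact hM Y hY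

/-- the truncated cone -/
def Kc (d : ℕ) (R T : ℝ) : Set (Fin (d + 1) → ℝ) :=
  {X | 0 ≤ X 0 ∧ X 0 ≤ T ∧ nsq X ≤ (R - X 0) ^ 2}

lemma continuous_nsq : Continuous (nsq (d := d)) := by
  unfold nsq
  fun_prop

lemma isCompact_Kc {R T : ℝ} (hR : 0 < R) (hTR : T < R) : IsCompact (Kc d R T) := by
  have hcl : IsClosed (Kc d R T) := by
    refine IsClosed.inter (isClosed_le continuous_const (continuous_apply 0))
      (IsClosed.inter (isClosed_le (continuous_apply 0) continuous_const)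
        (isClosed_le continuous_nsq (by fun_prop)))
  refine IsCompact.of_isClosed_subset (isCompact_Icc (a := fun _ => -R) (b := fun _ => R)) hcl ?_
  intro X hX
  obtain ⟨h0, h1, h2⟩ := hX
  have hb : ∀ i : Fin d, |X i.succ| ≤ R := by
    intro i
    have h3 : X i.succ ^ 2 ≤ nsq X := by
      unfold nsq
      exact Finset.single_le_sum (f := fun i : Fin d => X i.succ ^ 2) (fun i _ => sq_nonneg _)
        (Finset.mem_univ i)
    have h4 : (R - X 0) ^ 2 ≤ R ^ 2 := by nlinarith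
    exact abs_le_of_sq_le_sq (h3.trans (h2.trans h4)) hR.le
  constructor
  · intro i
    refine Fin.cases ?_ (fun i => ?_) i
    · show -R ≤ X 0; linarith
    · exact (abs_le.1 (hb i)).1
  · intro i
    refine Fin.cases ?_ (fun i => ?_) i
    · show X 0 ≤ R; linarith
    · exact (abs_le.1 (hb i)).2

lemma exists_ext {N : ℕ} {K O : Set (Fin (d + 1) → ℝ)} (hK : IsCompact K) (hO : IsOpen O)
    (hKO : K ⊆ O) {u : (Fin (d + 1) → ℝ) → (Fin N → ℝ)} (hu : ContDiffOn ℝ (⊤ : ℕ∞) u O) :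
    ∃ v : (Fin (d + 1) → ℝ) → (Fin N → ℝ), ContDiff ℝ (⊤ : ℕ∞) v ∧ ∀ P ∈ K, v =ᶠ[𝓝 P] u := by
  obtain ⟨f, h0, h1, _⟩ := exists_contMDiffMap_zero_one_nhds_of_isClosed (n := (⊤ : ℕ∞))
    𝓘(ℝ, Fin (d + 1) → ℝ) hO.isClosed_compl hK.isClosed
    (disjoint_compl_left_iff_subset.2 hKO)
  have hf : ContDiff ℝ (⊤ : ℕ∞) (f : (Fin (d + 1) → ℝ) → ℝ) := f.contMDiff.contDiff
  refine ⟨fun X => f X • u X, ?_, ?_⟩
  · rw [contDiff_iff_contDiffAt]
    intro X
    by_cases hX : X ∈ O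
    · exact hf.contDiffAt.smul (hu.contDiffAt (hO.mem_nhds hX))
    · have h2 : ∀ᶠ x in 𝓝 X, f x = 0 := by
        rw [eventually_nhdsSet_iff_forall] at h0
        exact h0 X hX
      have h3 : (fun X => f X • u X) =ᶠ[𝓝 X] fun _ => 0 := by
        filter_upwards [h2] with Y hY
        rw [hY, zero_smul]
      exact contDiffAt_const.congr_of_eventuallyEq h3
  · intro P hP
    rw [eventually_nhdsSet_iff_forall] at h1
    filter_upwards [h1 P hP] with Y hY
    rw [hY, one_smul]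

/-- uniqueness in cones -/
theorem unique_cone {R T : ℝ} (hT : 0 < T) (hTR : T < R) {O : Set (Fin (d + 1) → ℝ)}
    (hO : IsOpen O) (hKO : Kc d R T ⊆ O) {u v : (Fin (d + 1) → ℝ) → (Fin (n + 1) → ℝ)}
    (hu : ContDiffOn ℝ (⊤ : ℕ∞) u O) (hv : ContDiffOn ℝ (⊤ : ℕ∞) v O)
    (hup : ∀ P ∈ Kc d R T, 0 < u P (Fin.last n)) (hvp : ∀ P ∈ Kc d R T, 0 < v P (Fin.last n))
    (hue : ∀ P ∈ Kc d R T, ∀ k, wm u P k = 0) (hve : ∀ P ∈ Kc d R T, ∀ k, wm v P k = 0)
    (hi : ∀ P ∈ Kc d R T, P 0 = 0 → u P = v P ∧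
      fderiv ℝ u P (Pi.single 0 1) = fderiv ℝ v P (Pi.single 0 1))
    (X₀ : Fin (d + 1) → ℝ) (hX0 : 0 ≤ X₀ 0) (hX0T : X₀ 0 ≤ T) (hXc : nsq X₀ < (R - X₀ 0) ^ 2) :
    u X₀ = v X₀ := by
  have hR : 0 < R := hT.trans hTR
  have hK : IsCompact (Kc d R T) := isCompact_Kc hR hTR
  obtain ⟨u', hu', huu⟩ := exists_ext hK hO hKO hu
  obtain ⟨v', hv', hvv⟩ := exists_ext hK hO hKO hv
  have hX₀K : X₀ ∈ Kc d R T := ⟨hX0, hX0T, hXc.le⟩
  -- bounds
  obtain ⟨m, hm, hmu, hmv⟩ : ∃ m : ℝ, 0 < m ∧ (∀ P ∈ Kc d R T, m ≤ u' P (Fin.last n)) ∧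
      ∀ P ∈ Kc d R T, m ≤ v' P (Fin.last n) := by
    have hcu : Continuous fun P => u' P (Fin.last n) := (continuous_apply _).comp hu'.continuous
    have hcv : Continuous fun P => v' P (Fin.last n) := (continuous_apply _).comp hv'.continuous
    obtain ⟨P1, hP1, h1⟩ := hK.exists_isMinOn ⟨X₀, hX₀K⟩ hcu.continuousOn
    obtain ⟨P2, hP2, h2⟩ := hK.exists_isMinOn ⟨X₀, hX₀K⟩ hcv.continuousOn
    refine ⟨min (u' P1 (Fin.last n)) (v' P2 (Fin.last n)), lt_min ?_ ?_, fun P hP => ?_,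
      fun P hP => ?_⟩
    · rw [(huu P1 hP1).eq_of_nhds]; exact hup P1 hP1
    · rw [(hvv P2 hP2).eq_of_nhds]; exact hvp P2 hP2
    · exact (min_le_left _ _).trans (h1 hP)
    · exact (min_le_right _ _).trans (h2 hP)
  obtain ⟨M1, hM1⟩ := pd_bound hu' hK
  obtain ⟨M2, hM2⟩ := pd_bound hv' hK
  set M := max M1 M2 with hM
  have hfin := Energy.energy_uniqueness (fun Y => u' Y - v' Y) (hu'.sub hv') R T
    (((d + 1) * ((n + 1) + 2)) * (M ^ 2 / m ^ 2 + 2 * (M / m))) hT hTR ?_ ?_ X₀ hX0 hX0T hXc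
  · have h1 : u' X₀ = v' X₀ := sub_eq_zero.1 hfin
    rw [(huu X₀ hX₀K).eq_of_nhds, (hvv X₀ hX₀K).eq_of_nhds] at h1
    exact h1
  · intro P hP0 hPT hPn k
    have hPK : P ∈ Kc d R T := ⟨hP0, hPT, hPn⟩
    have hWe : wm v' P k = 0 := by rw [wm_congr (hvv P hPK)]; exact hve P hPK k
    have hVe : wm u' P k = 0 := by rw [wm_congr (huu P hPK)]; exact hue P hPK k
    rw [wm_eq] at hWe hVe
    rw [box_sub hu' hv']
    have e1 : box u' k P - box v' k P = -(NL (u' P (Fin.last n)) (fun μ i => pd u' μ i P) k -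
        NL (v' P (Fin.last n)) (fun μ i => pd v' μ i P) k) := by linarith
    rw [e1, abs_neg]
    have hMu : ∀ μ i, |pd u' μ i P| ≤ M := fun μ i => (hM1 P hPK μ i).trans (le_max_left _ _)
    have hMv : ∀ μ i, |pd v' μ i P| ≤ M := fun μ i => (hM2 P hPK μ i).trans (le_max_right _ _)
    have hnl := NL_diff hm k (hmu P hPK) (hmv P hPK) (D := fun μ i => pd u' μ i P)
      (E := fun μ i => pd v' μ i P) hMu hMv
    refine hnl.trans ?_
    have hM0 : 0 ≤ M := (abs_nonneg _).trans (hMu 0 0)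
    apply mul_le_mul_of_nonneg_left _ (by positivity)
    rw [Finset.sum_add_distrib, Finset.sum_comm]
    have e2 : ∀ j μ, pd (fun Y => u' Y - v' Y) μ j P = pd u' μ j P - pd v' μ j P :=
      fun j μ => pd_sub hu' hv' μ j P
    simp only [e2]
    gcongr
    have := Finset.single_le_sum (f := fun j => |(u' P - v' P) j|) (s := Finset.univ)
      (fun i _ => abs_nonneg _) (Finset.mem_univ (Fin.last n))
    exact this
  · intro P hP0 hPn j
    have hPK : P ∈ Kc d R T := ⟨hP0.ge, by rw [hP0]; exact hT.le, by rw [hP0, sub_zero]; exact hPn⟩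
    obtain ⟨h1, h2⟩ := hi P hPK hP0
    constructor
    · show u' P j - v' P j = 0
      rw [(huu P hPK).eq_of_nhds, (hvv P hPK).eq_of_nhds, h1, sub_self]
    · rw [pd_sub hu' hv', pd_congr (huu P hPK), pd_congr (hvv P hPK)]
      unfold pd
      rw [h2, sub_self]

end Pool.Agent.Y276.WM
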